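import Pool.Agent.helper78.FS.Spec
namespace Pool.Agent.helper78.FS
theorem UUU : UUU_stmt := by
  refine ⟨by decide, by decide, by decide, by decide, by decide, by decide⟩
end Pool.Agent.helper78.FS
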