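import Mathlib

/-!
# MP_55808c_co, project FS (rows `fs:XXX`), SPEC.   helper78, 3 Dec 2026

Theorem (`Main_stmt`): for all eps > 0 and N there is r0 such that for r >= r0 every colouring
c : S^2(r) -> Fin 7 without monochromatic distances in [1-eps,1+eps] has N Siamese points, pairwise
at distance >= N (p is Siamese if there are x, z of the colour of p with |x-p| < 1, |p-z| < 1, |x-z| > 1).

Every row `XXX` below is ONE statement `XXX_stmt : Prop` whose docstring contains the complete proof.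
Deliver `theorem XXX : XXX_stmt` in a file `Pool/Agent/<you>/FS/XXX.lean`, in the namespace
`Pool.Agent.helper78.FS`, importing `Pool.Agent.helper78.FS.Spec`.  Everything is discrete and elementary:
no measure theory, no topology.  (If a statement looks wrong, write to helper78 at once.)

PART A  clusters of a colouring (MRG SIA PKG CLU NB1 NB2 NB3 NB4)
PART B  AX the mod 2 cochain `om` on the sphere (AXS COC NEA IND), the grid (GST GDN GSP GPK GDG),
        closed surface identity (GCL), prism (PRI), push forward (LFT PSH INZ), POL PTS CON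
PART C  minimal mod 2 cycles (CYA SBC TRF LNK KAP SUM LIN CHI ARC SPT CMB)
PART D  the perfect colouring with 7 colours (PF1 PF2 PF3)
PART E  area (TRI CNA CNC CND CNE CNF TOT STK)
PART F  assembly (helper78)
-/

namespace Pool.Agent.helper78.FS

open Finset Real
open Classical

noncomputable section

abbrev E3 := EuclideanSpace ℝ (Fin 3)

/-! ## The theorem -/

/-- no two points of the sphere of radius `r` at a distance in `[1-ε, 1+ε]` have the same colour -/
def Good (ε r : ℝ) (c : E3 → Fin 7) : Prop :=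
  ∀ x y : E3, ‖x‖ = r → ‖y‖ = r → 1 - ε ≤ dist x y → dist x y ≤ 1 + ε → c x ≠ c y

/-- `p` is a Siamese point: closeness (same colour, distance `< 1`) is not transitive at `p` -/
def Siam (r : ℝ) (c : E3 → Fin 7) (p : E3) : Prop :=
  ‖p‖ = r ∧ ∃ x z : E3, ‖x‖ = r ∧ ‖z‖ = r ∧ c x = c p ∧ c z = c p ∧
    dist x p < 1 ∧ dist p z < 1 ∧ 1 < dist x z

/-- `N` Siamese points, pairwise at distance at least `N` -/
def ManySiam (r : ℝ) (c : E3 → Fin 7) (N : ℕ) : Prop :=
  ∃ p : Fin N → E3, (∀ i, Siam r c (p i)) ∧ ∀ i j, i ≠ j → (N : ℝ) ≤ dist (p i) (p j)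

def Main_stmt : Prop :=
  ∀ ε : ℝ, 0 < ε → ∀ N : ℕ, ∃ r0 : ℝ, ∀ r : ℝ, r0 ≤ r → ∀ c : E3 → Fin 7, Good ε r c →
    ManySiam r c N

/-! ## PART A: clusters -/

/-- `x` lies in one of the balls -/
def inb (Q : Finset E3) (R : ℝ) (x : E3) : Prop := ∃ q ∈ Q, dist x q < R

/-- the cluster relation: all sphere points of a ball `B(q,R)` form one class; outside the balls
same colour and distance `< 1` -/
def rel (r : ℝ) (c : E3 → Fin 7) (Q : Finset E3) (R : ℝ) (x y : E3) : Prop :=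
  x = y ∨ (‖x‖ = r ∧ ‖y‖ = r ∧
    ((∃ q ∈ Q, dist x q < R ∧ dist y q < R) ∨
      (¬ inb Q R x ∧ ¬ inb Q R y ∧ c x = c y ∧ dist x y < 1)))

/-- `φ` chooses a representative of each cluster -/
def Rep (r : ℝ) (c : E3 → Fin 7) (Q : Finset E3) (R : ℝ) (φ : E3 → E3) : Prop :=
  (∀ x y, φ x = φ y ↔ rel r c Q R x y) ∧ ∀ x, rel r c Q R x (φ x)

/-- the data coming from a colouring: the balls are disjoint and cover the Siamese points -/
def Dat (ε r : ℝ) (c : E3 → Fin 7) (Q : Finset E3) (R : ℝ) : Prop :=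
  0 < ε ∧ Good ε r c ∧ 1 ≤ R ∧ (∀ q ∈ Q, ∀ q' ∈ Q, q ≠ q' → 2 * R < dist q q') ∧
    ∀ p, Siam r c p → ∃ q ∈ Q, dist p q < R

/-- adjacency of clusters (vertices = representatives) -/
def Adj (r η : ℝ) (φ : E3 → E3) (v w : E3) : Prop :=
  v ≠ w ∧ ∃ x y : E3, ‖x‖ = r ∧ ‖y‖ = r ∧ φ x = v ∧ φ y = w ∧ dist x y ≤ η

/-- `v` is (the representative of) a ball -/
def blob (r : ℝ) (Q : Finset E3) (R : ℝ) (φ : E3 → E3) (v : E3) : Prop :=
  ∃ x : E3, ‖x‖ = r ∧ inb Q R x ∧ φ x = v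

/-- row MRG (merging balls).
Proof: induction on `P.card`.  If all distances are `> 2 R0` take `Q = P`, `R = R0`.  Otherwise
`dist p p' ≤ 2 R0` for some `p ≠ p'` in `P`; apply the induction hypothesis to `P.erase p'` with `3 R0`:
`q` with `dist p q + 3 R0 ≤ R` also satisfies `dist p' q + R0 ≤ R`. -/
def MRG_stmt : Prop :=
  ∀ (P : Finset E3) (R0 : ℝ), 0 < R0 → ∃ R : ℝ, R0 ≤ R ∧ R ≤ 3 ^ P.card * R0 ∧
    ∃ Q : Finset E3, Q ⊆ P ∧ (∀ p ∈ P, ∃ q ∈ Q, dist p q + R0 ≤ R) ∧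
      ∀ q ∈ Q, ∀ q' ∈ Q, q ≠ q' → 2 * R < dist q q'

/-- row SIA.  Proof: call a finite set of Siamese points with pairwise distances `≥ N` admissible.  An
admissible set has fewer than `N` elements (otherwise `ManySiam`, take `N` of its points).  Take an
admissible `P` of maximal cardinality; every Siamese point `s` has `dist s p < N` for some `p ∈ P`.
Apply MRG to `P` and `R0 = N`: `dist s q ≤ dist s p + dist p q < N + (R - N)`. -/
def SIA_stmt : Prop := MRG_stmt →
  ∀ (N : ℕ) (r : ℝ) (c : E3 → Fin 7), 1 ≤ N → ¬ ManySiam r c N →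
    ∃ R : ℝ, (N : ℝ) ≤ R ∧ R ≤ 3 ^ N * N ∧ ∃ Q : Finset E3, Q.card ≤ N ∧
      (∀ q ∈ Q, ∀ q' ∈ Q, q ≠ q' → 2 * R < dist q q') ∧
      ∀ p, Siam r c p → ∃ q ∈ Q, dist p q < R

/-- row PKG (packing).  Proof: `p ↦ (⌊2 p 0/s⌋, ⌊2 p 1/s⌋, ⌊2 p 2/s⌋)` is injective on `S` (two points with
the same image have distance `≤ √3 s/2 < s`) and each coordinate is an integer in
`[⌊2 (x k - D)/s⌋, ⌊2 (x k + D)/s⌋]`, which has at most `⌈4 D/s⌉₊ + 2` elements. -/
def PKG_stmt : Prop :=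
  ∀ (x : E3) (D s : ℝ), 0 ≤ D → 0 < s → ∀ S : Finset E3, (∀ p ∈ S, dist p x ≤ D) →
    (∀ p ∈ S, ∀ q ∈ S, p ≠ q → s ≤ dist p q) → S.card ≤ (⌈4 * D / s⌉₊ + 2) ^ 3

/-- row CLU.  Proof: `rel` is an equivalence relation.  Transitivity: if two members are in a common
ball then so is the third, because the balls are disjoint (`dist q q' > 2R`).  If `x,y,z` are outside
the balls, same colour, `dist x y < 1`, `dist y z < 1`: then `dist x z < 1`; otherwise
`dist x z ≠ 1` (by `Good`, `ε > 0`), so `1 < dist x z` and `y` is Siamese, hence `y` lies in a ball.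
Then take `φ = Quotient.out ∘ Quotient.mk`. -/
def CLU_stmt : Prop :=
  ∀ (ε r : ℝ) (c : E3 → Fin 7) (Q : Finset E3) (R : ℝ), Dat ε r c Q R →
    ∃ φ : E3 → E3, Rep r c Q R φ

/-- row NB1 (basic facts).  Proof: unfold `rel`.  (two points of a ball of radius `R` have distance
`< 2R`.)  In the third and fourth item `x` is outside the balls, so `rel x y` (with `y = φ x` for the third item)
is `x = y` or the last alternative; the distance is `< 1`, hence `< 1 - ε` by `Good` (or `0` if `x = y`). -/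
def NB1_stmt : Prop :=
  ∀ (ε r : ℝ) (c : E3 → Fin 7) (Q : Finset E3) (R : ℝ) (φ : E3 → E3), ε < 1 → Dat ε r c Q R →
    Rep r c Q R φ →
    (∀ x, ‖x‖ = r → ‖φ x‖ = r ∧ dist x (φ x) ≤ 2 * R) ∧
    (∀ x y, ‖x‖ = r → φ x = φ y → dist x y ≤ 2 * R) ∧
    (∀ x, ‖x‖ = r → ¬ blob r Q R φ (φ x) → c (φ x) = c x ∧ ¬ inb Q R x) ∧
    (∀ x y, ‖x‖ = r → ‖y‖ = r → ¬ inb Q R x → φ x = φ y → dist x y < 1 - ε ∧ c x = c y)

/-- row NB2 (colours of neighbours).  Proof: `v = φ x1 = φ x2`, `w = φ y1`, `w' = φ y2`,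
`dist x1 y1 ≤ η`, `dist x2 y2 ≤ η`; none of these four points is in a ball (NB1).  If `c w = c w'` then
`c y1 = c y2` and `dist y1 y2 ≤ η + (1 - ε) + η < 1`, so `rel y1 y2` and `w = w'`.  If `c w = c v` then
`c y1 = c x1`, `dist x1 y1 ≤ η < 1`, so `w = v`, against `v ≠ w`. -/
def NB2_stmt : Prop := NB1_stmt →
  ∀ (ε r : ℝ) (c : E3 → Fin 7) (Q : Finset E3) (R : ℝ) (φ : E3 → E3) (η : ℝ), ε < 1 →
    Dat ε r c Q R → Rep r c Q R φ → 0 < η → 2 * η < ε →
    ∀ v w, ¬ blob r Q R φ v → ¬ blob r Q R φ w → Adj r η φ v w → c w ≠ c v ∧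
      ∀ w', ¬ blob r Q R φ w' → Adj r η φ v w' → c w = c w' → w = w'

/-- row NB3 (degrees).  Proof: the members of `S` that are blobs: at most `Q.card` (all sphere points
of one ball have the same representative).  A non-blob member `w` has `y_w` with `φ y_w = w`,
`dist x_w y_w ≤ η ≤ 1`, `φ x_w = v`; fix one such `x0` (if any); `dist x_w x0 ≤ 2R` by NB1, so
`dist y_w x0 ≤ 2R + 1`.  For two different non-blob members with the same colour `dist y_w y_w' ≥ 1`
(otherwise `rel`).  By PKG (`s = 1`) each colour occurs at most `(⌈4 (2R+1)⌉₊ + 2)^3` times. -/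
def NB3_stmt : Prop := NB1_stmt → PKG_stmt →
  ∀ (ε r : ℝ) (c : E3 → Fin 7) (Q : Finset E3) (R : ℝ) (φ : E3 → E3) (η : ℝ), ε < 1 →
    Dat ε r c Q R → Rep r c Q R φ → 0 < η → η ≤ 1 →
    ∀ (v : E3) (S : Finset E3), (∀ w ∈ S, Adj r η φ v w) →
      S.card ≤ 7 * (⌈4 * (2 * R + 1)⌉₊ + 2) ^ 3 + Q.card

/-- row NB4 (the blobs and their neighbours).  Proof: there are at most `Q.card` blobs (one for each
ball meeting the sphere) and each has at most `M` neighbours (the set of neighbours is finite since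
all its finite subsets have at most `M` elements; `Set.Infinite.exists_subset_card_eq`). -/
def NB4_stmt : Prop :=
  ∀ (r : ℝ) (c : E3 → Fin 7) (Q : Finset E3) (R : ℝ) (φ : E3 → E3) (η : ℝ) (M : ℕ),
    Rep r c Q R φ →
    (∀ (v : E3) (S : Finset E3), (∀ w ∈ S, Adj r η φ v w) → S.card ≤ M) →
    ∃ Bl : Finset E3, Bl.card ≤ Q.card * (M + 1) ∧ (∀ v, blob r Q R φ v → v ∈ Bl) ∧
      ∀ v w, blob r Q R φ w → Adj r η φ v w → v ∈ Bl

/-- The interface between part A and part B. -/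
def Cfg (r η L : ℝ) (M KB : ℕ) (c : E3 → Fin 7) (φ : E3 → E3) (Bl : Finset E3) : Prop :=
  (∀ x, ‖x‖ = r → ‖φ x‖ = r ∧ dist x (φ x) ≤ L) ∧
  (∀ (v : E3) (S : Finset E3), (∀ w ∈ S, Adj r η φ v w) → S.card ≤ M) ∧
  (∀ v, v ∉ Bl → ∀ w w', Adj r η φ v w → Adj r η φ v w' → c w = c w' → w = w') ∧
  (∀ v w, v ∉ Bl → Adj r η φ v w → c w ≠ c v) ∧
  Bl.card ≤ KB

/-- row PTA (assembly of part A).  Proof: given `ε` (wlog `ε < 1`; `Good ε` implies `Good ε'` for `ε' ≤ ε`) and
`N ≥ 1` put `η = ε/4`, `Rm = 3^N * N`, `L = 2 Rm`, `M = 7 (⌈4 (2 Rm + 1)⌉₊ + 2)^3 + N`, `KB = N (M+1)`.  If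
`¬ ManySiam r c N` use SIA, CLU, NB1-NB4.  `v ∉ Bl` is not a blob and no neighbour of `v` is a blob
(`Adj` is symmetric: `dist_comm`), so NB2 applies. -/
def PTA_stmt : Prop := SIA_stmt → MRG_stmt → PKG_stmt → CLU_stmt → NB1_stmt → NB2_stmt → NB3_stmt →
  NB4_stmt →
  ∀ ε : ℝ, 0 < ε → ∀ N : ℕ, 1 ≤ N → ∃ (η L : ℝ) (M KB : ℕ), 0 < η ∧ η ≤ 1 ∧ 1 ≤ L ∧
    ∀ (r : ℝ) (c : E3 → Fin 7), Good ε r c → ¬ ManySiam r c N →
      ∃ (φ : E3 → E3) (Bl : Finset E3), Cfg r η L M KB c φ Bl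

/-! ## PART B: geometry of the sphere -/

/-- coordinates in the frame rotated by `t` about the y-axis -/
def xc (t : ℝ) (a : E3) : ℝ := cos t * a 0 - sin t * a 2
def yc (a : E3) : ℝ := a 1
def zc (t : ℝ) (a : E3) : ℝ := sin t * a 0 + cos t * a 2

/-- the pole of the frame `t` -/
def Nt (r t : ℝ) : E3 := !₂[r * sin t, 0, r * cos t]

/-- the segment from `a` (`y < 0`) to `b` (`y ≥ 0`) crosses the half plane `y = 0`, `xc t > 0` -/
def crs (t : ℝ) (a b : E3) : Prop :=
  yc a < 0 ∧ 0 ≤ yc b ∧ 0 < yc b * xc t a - yc a * xc t b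

/-- crossing number (mod 2) of the segment with the half plane -/
def kap (t : ℝ) (a b : E3) : ZMod 2 := if crs t a b ∨ crs t b a then 1 else 0

def dkap (t : ℝ) (a b c : E3) : ZMod 2 := kap t a b + kap t b c + kap t a c

/-- the 2-cochain dual to the pole `Nt r t` -/
def om (t : ℝ) (a b c : E3) : ZMod 2 :=
  if 0 < zc t a ∧ 0 < zc t b ∧ 0 < zc t c then dkap t a b c else 0

/-- row AXS.  Proof: if `L < |yc a|` then `yc a, yc b, yc c` are all `> 0` or all `< 0`, no crossing.  If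
`L < xc t a` then all `xc t > 0` (`xc t` is 1-Lipschitz: `|xc t a - xc t b| ≤ dist a b`, Cauchy-Schwarz), so
`kap = 1` exactly if `yc < 0 ≤ yc` for the two end points (in one of the orders), and among three signs
an even number of pairs differ.  If `xc t a < -L` all `xc t < 0` and `kap = 0` always. -/
def AXS_stmt : Prop :=
  ∀ (t L : ℝ) (a b c : E3), dist a b ≤ L → dist a c ≤ L → (L < |yc a| ∨ L < |xc t a|) →
    dkap t a b c = 0

/-- row COC (cocycle).  Proof: if all four `zc t > 0` every pair is counted twice (`dkap` of the four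
triples; `kap` is symmetric, char 2).  Otherwise let one point, say `d`, have `zc t d ≤ 0`: the three
triples containing `d` give `0`; if the fourth triple `(a,b,c)` has all `zc t > 0` then `0 < zc t a ≤ L`
(1-Lipschitz), so `xc² + yc² = r² - zc² ≥ 99 L²` and `|xc t a| > L` or `|yc a| > L`: `dkap = 0` by AXS. -/
def COC_stmt : Prop := AXS_stmt →
  ∀ (t L r : ℝ) (a b c d : E3), 0 < L → 10 * L ≤ r → ‖a‖ = r → ‖b‖ = r → ‖c‖ = r → ‖d‖ = r →
    dist a b ≤ L → dist a c ≤ L → dist a d ≤ L → dist b c ≤ L → dist b d ≤ L → dist c d ≤ L →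
    om t b c d + om t a c d + om t a b d + om t a b c = 0

/-- row NEA.  Proof: by AXS `|yc a| ≤ L`, `|xc t a| ≤ L`; `zc t a > 0`; `xc² + yc² + zc² = r²`;
`dist a (Nt r t)² = 2 r (r - zc t a)` and `r - zc = (xc² + yc²)/(r + zc) ≤ 2 L²/r`. -/
def NEA_stmt : Prop := AXS_stmt →
  ∀ (t L r : ℝ) (a b c : E3), 0 < L → 0 < r → ‖a‖ = r → dist a b ≤ L → dist a c ≤ L →
    om t a b c ≠ 0 → dist a (Nt r t) ≤ 2 * L

/-- crossing number (mod 2) of the segment `ab` with the arc of the great circle `y = 0` from the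
pole `Nt r 0` to the pole `Nt r t` (`0 < t < π`): `xc 0 > 0`, `xc t ≤ 0` at the crossing point -/
def crt (t : ℝ) (a b : E3) : Prop :=
  yc a < 0 ∧ 0 ≤ yc b ∧ 0 < yc b * xc 0 a - yc a * xc 0 b ∧ yc b * xc t a - yc a * xc t b ≤ 0

def chi (t : ℝ) (a b : E3) : ZMod 2 := if crt t a b ∨ crt t b a then 1 else 0

/-- row IND.  Proof.  If the signs of `yc a, yc b, yc c` (`< 0` / `≥ 0`) agree everything is 0.  Otherwise exactly
two of the three segments cross the plane `y = 0`, at `w1, w2` (`w = (yb a - ya b)/(yb - ya)`); `w1,w2` lie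
in the triangle, so all distances between `w1, w2, a, b, c` are `≤ L`, and `‖w‖² ≥ r² - L²/4`
(a point of a chord of length `≤ L`; weaker bounds suffice).
Let `S = {xc 0 > 0, xc t ≤ 0}`; `dchi = 1` iff exactly one of `w1,w2` is in `S`.  Recall
`xc t = cos t xc 0 - sin t zc 0` and (inverse) `xc 0 = cos t xc t + sin t zc t`.
(i) `w1 ∈ S`, `xc 0 w2 ≤ 0` (`w2 ∉ S`): then `|xc 0| ≤ L` at both, `|zc 0| ≥ 0.9 r` at both, same sign; `zc 0 w1 < 0` would
give `xc t w1 ≥ - L + 0.9 r sin t > 0`, no; so `zc 0 > 0` on the triangle, `om 0 = [xc 0 w1 > 0] + [xc 0 w2 > 0] = 1`,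
and `xc t < 0` at both, so `dkap t = 0`, `om t = 0`.
(ii) `w1 ∈ S`, `xc t w2 > 0`: symmetric: `|xc t| ≤ L`, `zc t > 0` (else `xc 0 w1 < 0`), `om t = 1`, `xc 0 > 0` at both, `om 0 = 0`.
(iii) both or none in `S`: if `om 0 = 1` then (`zc 0 > 0`, one `xc 0 > 0`, one `≤ 0`, so `xc t < 0` at both) exactly one is in
`S`, no; if `om t = 1` then (`zc t > 0`, one `xc t > 0`, one `≤ 0`, so `xc 0 > 0` at both) again exactly one is in `S`, no;
so `om 0 = om t = 0`.
(Work with `wi` unnormalised only if convenient; by the symmetry of all functions one may assume `a` is the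
vertex on its own side.) -/
def IND_stmt : Prop :=
  ∀ (t L r : ℝ) (a b c : E3), 0 < L → 10 * L ≤ r → 0 < t → t < π → 10 * L ≤ r * sin t →
    ‖a‖ = r → ‖b‖ = r → ‖c‖ = r → dist a b ≤ L → dist a c ≤ L → dist b c ≤ L →
    chi t a b + chi t b c + chi t a c = om 0 a b c + om t a b c

/-! ### the latitude-longitude grid in the frame t -/

/-- grid point: colatitude `j π/n`, longitude `(i + 1/2) π/n` in the frame `t` -/
def gr (t r : ℝ) (n : ℕ) (i : ZMod (2 * n)) (j : ℕ) : E3 :=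
  !₂[cos t * (r * sin (j * π / n) * cos (((i.val : ℝ) + 1 / 2) * π / n)) + sin t * (r * cos (j * π / n)),
     r * sin (j * π / n) * sin (((i.val : ℝ) + 1 / 2) * π / n),
     - sin t * (r * sin (j * π / n) * cos (((i.val : ℝ) + 1 / 2) * π / n)) + cos t * (r * cos (j * π / n))]

/-- index set of the fine triangles: for `(i,j,false)` the corners are
`g i j, g (i+1) j, g (i+1) (j+1)`; for `(i,j,true)` they are `g (i+1) (j+1), g i (j+1), g i j` -/
abbrev FI (n : ℕ) := ZMod (2 * n) × Fin n × Bool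

def ta {V : Type} {n : ℕ} (g : ZMod (2 * n) → ℕ → V) (f : FI n) : V :=
  if f.2.2 then g (f.1 + 1) (f.2.1 + 1) else g f.1 f.2.1
def tb {V : Type} {n : ℕ} (g : ZMod (2 * n) → ℕ → V) (f : FI n) : V :=
  if f.2.2 then g f.1 (f.2.1 + 1) else g (f.1 + 1) f.2.1
def tc {V : Type} {n : ℕ} (g : ZMod (2 * n) → ℕ → V) (f : FI n) : V :=
  if f.2.2 then g f.1 f.2.1 else g (f.1 + 1) (f.2.1 + 1)

/-- row GCO (coordinates of grid points).  Proof: direct computation. -/
def GCO_stmt : Prop :=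
  ∀ (t r : ℝ) (n : ℕ) [NeZero n], 0 ≤ r → ∀ (i : ZMod (2 * n)) (j : ℕ),
    xc t (gr t r n i j) = r * sin (j * π / n) * cos (((i.val : ℝ) + 1 / 2) * π / n) ∧
    yc (gr t r n i j) = r * sin (j * π / n) * sin (((i.val : ℝ) + 1 / 2) * π / n) ∧
    zc t (gr t r n i j) = r * cos (j * π / n) ∧
    ‖gr t r n i j‖ = r ∧ gr t r n i 0 = Nt r t ∧ gr t r n i n = - Nt r t

/-- row GST (grid steps).  Proof: chord ≤ arc.  For `i ↦ i+1`: the longitudes differ by `π/n` modulo `2π`
(also for `i.val = 2n-1`, `(i+1).val = 0`), chord `= 2 r sin θ sin(π/2n)`. -/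
def GST_stmt : Prop :=
  ∀ (t r : ℝ) (n : ℕ) [NeZero n], 0 ≤ r → ∀ (i : ZMod (2 * n)) (j : ℕ), j ≤ n →
    dist (gr t r n i j) (gr t r n (i + 1) j) ≤ r * π / n ∧
    (j < n → dist (gr t r n i j) (gr t r n i (j + 1)) ≤ r * π / n)

/-- row GDN (the grid is dense).  Proof: spherical coordinates of `x` in the frame `t` (`θ ∈ [0,π]`,
`φ ∈ [0,2π)`), `j = ⌊θ n/π⌋ ≤ n`, `i = ⌊φ n/π⌋ < 2n`; then `|θ - θ_j| ≤ π/n`, `|φ - φ_i| ≤ π/(2n)`. -/
def GDN_stmt : Prop :=
  ∀ (t r : ℝ) (n : ℕ) [NeZero n], 0 < r → ∀ x : E3, ‖x‖ = r →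
    ∃ (i : ZMod (2 * n)) (j : ℕ), j ≤ n ∧ dist x (gr t r n i j) ≤ 2 * r * π / n

/-- row GSP (separation).  Proof: `dist² = r² (2 - 2 cos θ cos θ' - 2 sin θ sin θ' cos Δφ)`.  If `j ≠ j'` this is
`≥ r² (2 - 2 cos(θ-θ')) = 4 r² sin²((θ-θ')/2)` and `sin(|θ-θ'|/2) ≥ |θ-θ'|/π ≥ 1/n` (Jordan, `(θ-θ')/2 ≤ π/2`).
If `j = j'`, `i ≠ i'`: `dist = 2 r sin θ |sin(Δφ/2)|`, `Δφ/2 = k π/(2n)` with `1 ≤ |k| ≤ 2n-1`, `|sin| ≥ sin(π/2n) ≥ 1/n`. -/
def GSP_stmt : Prop :=
  ∀ (t r s : ℝ) (n : ℕ) [NeZero n], 0 < r → 0 ≤ s → s ≤ 1 → ∀ (i i' : ZMod (2 * n)) (j j' : ℕ),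
    j ≤ n → j' ≤ n → s ≤ sin (j * π / n) → (i, j) ≠ (i', j') →
    2 * s * r / n ≤ dist (gr t r n i j) (gr t r n i' j')

/-- row GPK (few grid points near a point far from the poles).  Proof: a grid point `P` within `D ≤ κ r/2` of `b` has
distance `≥ κ r/2` from both poles `± Nt`, i.e. `2 sin(θ/2) ≥ κ/2`, `2 cos(θ/2) ≥ κ/2`, and one of `sin(θ/2), cos(θ/2)` is
`≥ 1/√2`, so `sin θ ≥ κ/4`.  By GSP (s = κ/4) these grid points have pairwise distances `≥ κ r/(2n)` (so the
map index ↦ point is injective) and PKG applies with `s = κ r/(2n)`. -/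
def GPK_stmt : Prop := GCO_stmt → GSP_stmt → PKG_stmt →
  ∀ (t r κ D : ℝ) (n : ℕ) [NeZero n] (b : E3), 0 < r → 0 < κ → κ ≤ 1 → 0 ≤ D → D ≤ κ * r / 2 →
    κ * r ≤ dist b (Nt r t) → κ * r ≤ dist b (- Nt r t) →
    (((Finset.univ : Finset (ZMod (2 * n))) ×ˢ range (n + 1)).filter
      (fun p => dist (gr t r n p.1 p.2) b ≤ D)).card ≤ (⌈8 * D * n / (κ * r)⌉₊ + 2) ^ 3

/-- row GCL (the grid is a closed surface).  Proof: for the square `(i,j)` with corners
`A = g i j, B = g (i+1) j, C = g (i+1) (j+1), D = g i (j+1)` the two triangles give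
`q A B + q B C + q C A + q C D + q D A + q A C = h i j + v (i+1) j - h i (j+1) - v i j` with
`h i j = q (g i j) (g (i+1) j)`, `v i j = q (g i j) (g i (j+1))`.  Sum over `i ∈ ZMod (2n)` (the `v` cancel, shift by 1)
and over `j < n` (telescoping): `Σ_i (h i 0 - h i n) = 0` since `g i 0 = g (i+1) 0`, `g i n = g (i+1) n`, `q x x = 0`. -/
def GCL_stmt : Prop :=
  ∀ (V A : Type) [AddCommGroup A] (n : ℕ) [NeZero n] (g : ZMod (2 * n) → ℕ → V) (q : V → V → A),
    (∀ i i', g i 0 = g i' 0) → (∀ i i', g i n = g i' n) → (∀ x, q x x = 0) →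
    (∀ x y, q y x = - q x y) →
    ∑ f : FI n, (q (ta g f) (tb g f) + q (tb g f) (tc g f) + q (tc g f) (ta g f)) = 0

/-- row GDG (the grid has degree one at the pole).  Proof: use GCO.  Write `φ_i = (i+1/2)π/n`: `sin φ_i > 0` for
`i.val < n`, `< 0` for `i.val ≥ n`; never 0.  A triangle with a corner `- Nt` (`j+1 = n`, `zc = -r`) has `om = 0`.
For `j = 0` the first triangle is `(N, N, C)`, `om = 0`; the second is `(C, D, N)` with `C = g (i+1) 1`, `D = g i 1`, `N` the pole: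
`kap` of a pair containing `N` is `0` (`yc N = xc t N = 0`), so `om = kap C D` (if `n ≥ 3`, `zc > 0`; for `n = 2`, `zc = r cos(π/2) = 0`:
therefore `n ≥ 3` is assumed), which is 1 iff exactly one of `yc C, yc D` is negative and the crossing has
`xc > 0`: only for `i.val = 2n-1` (for `i.val = n-1` both `xc < 0`).  For `j ≥ 1`, `j+1 < n`: the corners lie in two
neighbouring columns `i, i+1`; if all `yc` have the same sign `om = 0`; if `i.val = n-1` all `xc < 0`, all `kap = 0`; if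
`i.val = 2n-1` all `xc > 0`, `kap = 1` iff the two points are in different columns, and in both
triangles exactly two of the three pairs are, so `dkap = 0`.  Total: exactly one triangle with `om = 1`. -/
def GDG_stmt : Prop := GCO_stmt →
  ∀ (t r : ℝ) (n : ℕ) [NeZero n], 0 < r → 3 ≤ n →
    ∑ f : FI n, om t (ta (gr t r n) f) (tb (gr t r n) f) (tc (gr t r n) f) = 1

/-- row POL (a frame whose poles are far from the centres).  Proof: `t_k = k π/(K+1)`, `k = 0..K`.  The points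
`± Nt r t_k` (`- Nt r t = Nt r (t+π)`) are `2(K+1)` equally spaced points on a circle of radius `r`, so different ones
have distance `≥ 2 r sin(π/(2(K+1))) ≥ 2r/(K+1)`.  If no `k` works then for each `k` there is `b_k ∈ S` at
distance `< r/(K+1)` from `Nt r t_k` or `- Nt r t_k`; two different `k` share `b_k` (pigeonhole), contradiction. -/
def POL_stmt : Prop :=
  ∀ (K : ℕ) (r : ℝ) (S : Finset E3), 0 < r → S.card ≤ K → ∃ t : ℝ,
    (t = 0 ∨ (0 < t ∧ t < π ∧ 2 * r / (K + 1) ≤ r * sin t)) ∧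
    ∀ b ∈ S, r / (K + 1) ≤ dist b (Nt r t) ∧ r / (K + 1) ≤ dist b (- Nt r t)

/-- row PTS (many separated points).  Proof: `(s i, s j, √(r² - s² i² - s² j²))` for `0 ≤ i, j ≤ ⌊r/(2s)⌋`. -/
def PTS_stmt : Prop :=
  ∀ r s : ℝ, 0 < s → 0 < r → ∃ P : Finset E3, (∀ p ∈ P, ‖p‖ = r) ∧
    (∀ p ∈ P, ∀ q ∈ P, p ≠ q → s ≤ dist p q) ∧ (r / (2 * s)) ^ 2 ≤ P.card

/-- row CON (connectivity of the far grid points).  A column `i` is bad if some `g i j` (`j ≤ n`) is within `D1` of `Bc`; there are at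
most `C1 < 2n` bad columns.  From a point `(i,j)` with all distances `≥ D2` go `k ≤ C1` steps to the right to
a good column: all points passed have distances `≥ D2 - C1 η > D1`.  In the good column go to `j = 0`.
All `P i 0` are equivalent.  So `P i1 j1` gives `P i 0` for all `i`, and then `P i j` for every far `(i,j)`
(the steps are reversible). -/
def CON_stmt : Prop :=
  ∀ (n : ℕ) [NeZero n] (g : ZMod (2 * n) → ℕ → E3) (η D1 D2 : ℝ) (C1 : ℕ) (Bc : Finset E3)
    (P : ZMod (2 * n) → ℕ → Prop), 0 ≤ η →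
    (∀ i j, j ≤ n → dist (g i j) (g (i + 1) j) ≤ η) → C1 < 2 * n → D1 + C1 * η < D2 →
    (((Finset.univ : Finset (ZMod (2 * n))) ×ˢ range (n + 1)).filter
      (fun p => ∃ b ∈ Bc, dist (g p.1 p.2) b ≤ D1)).card ≤ C1 →
    (∀ i i', P i 0 → P i' 0) →
    (∀ i j, j ≤ n → (∀ b ∈ Bc, D1 < dist (g i j) b) → (∀ b ∈ Bc, D1 < dist (g (i + 1) j) b) →
      (P i j ↔ P (i + 1) j)) →
    (∀ i j, j < n → (∀ b ∈ Bc, D1 < dist (g i j) b) → (∀ b ∈ Bc, D1 < dist (g i (j + 1)) b) →
      (P i j ↔ P i (j + 1))) →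
    ∀ i1 j1, j1 ≤ n → (∀ b ∈ Bc, D2 ≤ dist (g i1 j1) b) → P i1 j1 →
      ∀ i j, j ≤ n → (∀ b ∈ Bc, D2 ≤ dist (g i j) b) → P i j

/-! ### symmetric 2-cochains, closed families of triangles -/

/-- symmetric and zero on degenerate triples -/
def Sym3 {V : Type} (ω : V → V → V → ZMod 2) : Prop :=
  (∀ a b c, ω b a c = ω a b c) ∧ (∀ a b c, ω a c b = ω a b c) ∧ ∀ a b, ω a a b = 0

/-- a symmetric 2-cochain as a function of the set of corners -/
def Lft {V : Type} [DecidableEq V] (ω : V → V → V → ZMod 2) (τ : Finset V) : ZMod 2 :=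
  if h : ∃ p : V × V × V, τ = {p.1, p.2.1, p.2.2} then
    ω h.choose.1 h.choose.2.1 h.choose.2.2 else 0

/-- row LFT.  Proof: if `{a',b',c'} = {a,b,c}` with `a,b,c` distinct then `(a',b',c')` is a permutation
of `(a,b,c)`; if `a,b,c` are not distinct then `a',b',c'` are not distinct either (card) and both values are 0. -/
def LFT_stmt : Prop :=
  ∀ (V : Type) [DecidableEq V] (ω : V → V → V → ZMod 2), Sym3 ω →
    ∀ a b c, Lft ω {a, b, c} = ω a b c

/-- the family of (oriented) triangles `(a f, b f, c f)` is closed, mod 2 -/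
def Clo2 {V ι : Type} [Fintype ι] (a b c : ι → V) : Prop :=
  ∀ q : V → V → ZMod 2, (∀ x, q x x = 0) → (∀ x y, q y x = q x y) →
    ∑ f, (q (a f) (b f) + q (b f) (c f) + q (c f) (a f)) = 0

/-- closed, over the integers -/
def Clo {V ι : Type} [Fintype ι] (a b c : ι → V) : Prop :=
  ∀ q : V → V → ℤ, (∀ x, q x x = 0) → (∀ x y, q y x = - q x y) →
    ∑ f, (q (a f) (b f) + q (b f) (c f) + q (c f) (a f)) = 0

/-- row PRI (prism).  Proof: write `x' = φ x`.  Put `q x y = om x y x' + om y x' y'` if `x, y, x', y'` have norm `r` and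
pairwise distances `≤ L`, and `q x y = 0` otherwise.  COC for `(x,y,x',y')` says `q x y = q y x`; `q x x = 0` (`om` is symmetric
and `0` on degenerate triples).  For a triangle `(A,B,C)` of the family COC for `(A,B,C,A')`, `(B,C,A',B')`, `(C,A',B',C')` adds up to
`om A B C + om A' B' C' = q A B + q B C + q A C`.  Sum over `f` and use `Clo2`. -/
def PRI_stmt : Prop := AXS_stmt → COC_stmt →
  ∀ (ι : Type) [Fintype ι] (a b c : ι → E3) (φ : E3 → E3) (t L r : ℝ), 0 < L → 10 * L ≤ r →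
    Clo2 a b c →
    (∀ f, ∀ x ∈ ({a f, b f, c f, φ (a f), φ (b f), φ (c f)} : Set E3), ‖x‖ = r ∧
      ∀ y ∈ ({a f, b f, c f, φ (a f), φ (b f), φ (c f)} : Set E3), dist x y ≤ L) →
    ∑ f, om t (φ (a f)) (φ (b f)) (φ (c f)) = ∑ f, om t (a f) (b f) (c f)

/-! ## PART C: minimal cycles of a clique complex.  `G` = adjacency. -/

def Cliq {V : Type} (G : V → V → Prop) (τ : Finset V) : Prop := ∀ a ∈ τ, ∀ b ∈ τ, a ≠ b → G a b

/-- a mod 2 two-cycle of the clique complex of `G` -/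
def Cyc {V : Type} [DecidableEq V] (G : V → V → Prop) (z : Finset (Finset V)) : Prop :=
  (∀ τ ∈ z, τ.card = 3 ∧ Cliq G τ) ∧
    ∀ e : Finset V, e.card = 2 → Even (z.filter (fun τ => e ⊆ τ)).card

def wt {V : Type} (Ω : Finset V → ZMod 2) (z : Finset (Finset V)) : ZMod 2 := ∑ τ ∈ z, Ω τ

/-- vertices, edges, link, curvature -/
def verts {V : Type} [DecidableEq V] (z : Finset (Finset V)) : Finset V := z.biUnion id
def eds {V : Type} [DecidableEq V] (z : Finset (Finset V)) : Finset (Finset V) :=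
  z.biUnion (fun τ => τ.powersetCard 2)
def lk {V : Type} [DecidableEq V] (z : Finset (Finset V)) (v : V) : Finset (Finset V) :=
  (z.filter (fun τ => v ∈ τ)).image (fun τ => τ.erase v)
def kh {V : Type} [DecidableEq V] (z : Finset (Finset V)) (v : V) : ℤ :=
  6 + 2 * ((lk z v).card : ℤ) - 3 * ((verts (lk z v)).card : ℤ)

/-- `Ω` is a cocycle on the clique complex -/
def Coc {V : Type} (G : V → V → Prop) (Ω : Finset V → ZMod 2) : Prop :=
  ∀ Q : Finset V, Q.card = 4 → Cliq G Q → ∑ τ ∈ Q.powersetCard 3, Ω τ = 0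

/-- a cycle of odd weight with the least number of triangles -/
def MinC {V : Type} [DecidableEq V] (G : V → V → Prop) (Ω : Finset V → ZMod 2)
    (z : Finset (Finset V)) : Prop :=
  Cyc G z ∧ wt Ω z = 1 ∧ ∀ z', Cyc G z' → wt Ω z' = 1 → z.card ≤ z'.card

/-- the neighbourhood of `v` is exactly an (induced) hexagon -/
def HexN {V : Type} (G : V → V → Prop) (v : V) : Prop :=
  ∃ u : ZMod 6 → V, Function.Injective u ∧ (∀ w, G v w ↔ ∃ i, w = u i) ∧
    ∀ i j, G (u i) (u j) ↔ (j = i + 1 ∨ i = j + 1)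

/-- row PSH (push forward).  Proof: `z0` = the 3-sets `τ` such that `{a f, b f, c f} = τ` for an odd number of `f`.  For a
2-set `e = {x,y}` the number of `τ ∈ z0` with `e ⊆ τ` is, mod 2, the number of `f` with `{a,b,c}_f` of
cardinality 3 containing `e`, which is `Σ_f` (number of the pairs `ab, bc, ca` equal to `e`) mod 2 (a degenerate `f` contributes
0 or 2), i.e. `0` by `Clo2` for the indicator function `q` of `{x',y'} = {x,y}`.  The weight: `Σ_{τ ∈ z0} Lft ω τ = Σ_f ω (a f) (b f) (c f) = 1` by LFT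
(degenerate `f` contribute 0). -/
def PSH_stmt : Prop := LFT_stmt →
  ∀ (V ι : Type) [DecidableEq V] [Fintype ι] (G : V → V → Prop) (a b c : ι → V)
    (ω : V → V → V → ZMod 2), (∀ x y, G x y → G y x) → Sym3 ω → Clo2 a b c →
    (∀ f, (a f = b f ∨ G (a f) (b f)) ∧ (b f = c f ∨ G (b f) (c f)) ∧ (c f = a f ∨ G (c f) (a f))) →
    ∑ f, ω (a f) (b f) (c f) = 1 → ∃ z0 : Finset (Finset V), Cyc G z0 ∧ wt (Lft ω) z0 = 1

/-- row INZ.  Proof: `ω {a,b,c} + ω' {a,b,c} = χ ab + χ bc + χ ac` for every triangle of `z`; sum over `z`: every edge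
(2-set) occurs in an even number of triangles.  (Each `τ ∈ z` is `{a,b,c}` with distinct entries;
`Σ_{τ∈z} Σ_{e ∈ τ.powersetCard 2} F e = Σ_e F e * #{τ ∈ z | e ⊆ τ} = 0` with `F {a,b} = χ a b`.) -/
def INZ_stmt : Prop := LFT_stmt →
  ∀ (V : Type) [DecidableEq V] (G : V → V → Prop) (z : Finset (Finset V))
    (ω ω' : V → V → V → ZMod 2) (χ : V → V → ZMod 2), Sym3 ω → Sym3 ω' →
    (∀ x y, χ y x = χ x y) → Cyc G z →
    (∀ a b c, {a, b, c} ∈ z → χ a b + χ b c + χ a c = ω a b c + ω' a b c) →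
    wt (Lft ω) z = wt (Lft ω') z

/-- row CYA.  Proof: `card (z ∆ z') ≡ card z + card z'` mod 2 (same for the filtered sets: `filter` commutes with `symmDiff`);
sums in characteristic 2; a 2-set contained in the 4-set `Q` lies in exactly two 3-subsets of `Q`, other 2-sets in none. -/
def CYA_stmt : Prop :=
  ∀ (V : Type) [DecidableEq V] (G : V → V → Prop),
    (∀ z z' : Finset (Finset V), Cyc G z → Cyc G z' → Cyc G (symmDiff z z')) ∧
    (∀ (Ω : Finset V → ZMod 2) (z z' : Finset (Finset V)), wt Ω (symmDiff z z') = wt Ω z + wt Ω z') ∧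
    (∀ Q : Finset V, Q.card = 4 → Cliq G Q → Cyc G (Q.powersetCard 3))

/-- row SBC.  Proof: `z = y + (z \ y)` (symmetric difference `z ∆ y = z \ y`), one of the two has weight 1, so by minimality
(its cardinality is `≥ card z`) the other is empty. -/
def SBC_stmt : Prop := CYA_stmt →
  ∀ (V : Type) [DecidableEq V] (G : V → V → Prop) (Ω : Finset V → ZMod 2) (z y : Finset (Finset V)),
    MinC G Ω z → Cyc G y → y ⊆ z → y = ∅ ∨ y = z

/-- row TRF (links contain no triangle).  Proof: `Q = {v,a,b,c}` is a 4-clique (every pair lies in one of the three triangles).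
`z ∆ (Q.powersetCard 3)` is a cycle of weight `1 + 0`, and has at most `card z + 4 - 6` elements. -/
def TRF_stmt : Prop := CYA_stmt →
  ∀ (V : Type) [DecidableEq V] (G : V → V → Prop) (Ω : Finset V → ZMod 2) (z : Finset (Finset V)),
    (∀ x y, G x y → G y x) → Coc G Ω → MinC G Ω z →
    ∀ v a b c : V, a ≠ b → b ≠ c → a ≠ c → v ≠ a → v ≠ b → v ≠ c →
      {v, a, b} ∈ z → {v, b, c} ∈ z → {v, a, c} ∈ z → False

/-- row LNK (links are Eulerian).  Proof: `e ↦ insert v e` is a bijection from the `e ∈ lk z v` with `a ∈ e` to the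
`τ ∈ z` with `{v,a} ⊆ τ`. -/
def LNK_stmt : Prop :=
  ∀ (V : Type) [DecidableEq V] (G : V → V → Prop) (z : Finset (Finset V)) (v : V), Cyc G z →
    (∀ e ∈ lk z v, e.card = 2 ∧ v ∉ e ∧ insert v e ∈ z) ∧
    (∀ e, v ∉ e → insert v e ∈ z → e ∈ lk z v) ∧
    (∀ a, Even ((lk z v).filter (fun e => a ∈ e)).card) ∧
    (∀ a ∈ verts (lk z v), G v a ∧ a ∈ verts z)

/-- a hexagon as a set of edges -/
def hexE {V : Type} [DecidableEq V] (u : ZMod 6 → V) : Finset (Finset V) :=
  (Finset.univ : Finset (ZMod 6)).image (fun i => {u i, u (i + 1)})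

/-- row KAP (even triangle-free graphs with at most 6 vertices).  Let `n = card (verts ℓ)`, `m = card ℓ`.  Every vertex has even degree `≥ 2`,
so `2m ≥ 2n`, `m ≥ n` (first claim).  If `n ≤ 6` then `6 + 2m - 3n ≥ 6 - n ≥ 0`, with equality iff `n = 6` and `m = 6`, i.e. 6 vertices all
of degree 2; a triangle-free 2-regular graph on 6 vertices is a hexagon: start at `u0` with neighbours `u1, u5`; the other neighbour
`u2` of `u1` is not `u5` (triangle-free) nor `u0`; the other neighbour `u4` of `u5` is not `u0`, `u1`; if `u4 = u2` the remaining two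
vertices have all their neighbours among themselves, impossible (degree 2); so `u4 ≠ u2`, the sixth vertex `u3` has its two
neighbours among `u2, u4` (others are saturated), so `u2u3, u3u4 ∈ ℓ` and these are all six edges. -/
def KAP_stmt : Prop :=
  ∀ (V : Type) [DecidableEq V] (ℓ : Finset (Finset V)), (∀ e ∈ ℓ, e.card = 2) →
    (∀ a, Even (ℓ.filter (fun e => a ∈ e)).card) →
    (verts ℓ).card ≤ ℓ.card ∧
    ((verts ℓ).card ≤ 6 →
      (∀ a b c : V, a ≠ b → b ≠ c → a ≠ c → {a, b} ∈ ℓ → {b, c} ∈ ℓ → {a, c} ∈ ℓ → False) →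
      0 ≤ 6 + 2 * (ℓ.card : ℤ) - 3 * ((verts ℓ).card : ℤ) ∧
      (6 + 2 * (ℓ.card : ℤ) - 3 * ((verts ℓ).card : ℤ) = 0 →
        ∃ u : ZMod 6 → V, Function.Injective u ∧ ℓ = hexE u))

/-- row SUM (Euler).  Proof: `Σ_v card (lk z v) = Σ_v #{τ ∈ z | v ∈ τ} = 3 card z` (`τ ↦ τ.erase v` is injective on `{τ | v ∈ τ}`);
`Σ_v card (verts (lk z v)) = Σ_v #{a | {v,a} ∈ eds z, a ≠ v} = 2 card (eds z)`. -/
def SUM_stmt : Prop :=
  ∀ (V : Type) [DecidableEq V] (z : Finset (Finset V)), (∀ τ ∈ z, τ.card = 3) →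
    ∑ v ∈ verts z, kh z v = 6 * ((verts z).card : ℤ) - 6 * ((eds z).card : ℤ) + 6 * (z.card : ℤ)

/-- row LIN (linear algebra over F_2).  Proof: `range A ≤ ker B`, so `rank A + rank B ≤ card b` (rank-nullity); `rank A ≥ card a - 1`
since the kernel has at most 2 elements, `rank B = rank Bᵀ ≥ card c - 1` likewise (`Matrix.rank_transpose`). -/
def LIN_stmt : Prop :=
  ∀ (a b c : Type) [Fintype a] [Fintype b] [Fintype c] [DecidableEq a] [DecidableEq b]
    [DecidableEq c] (A : Matrix b a (ZMod 2)) (B : Matrix c b (ZMod 2)) (x0 : a → ZMod 2)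
    (y0 : c → ZMod 2), B * A = 0 → (∀ x, A.mulVec x = 0 → x = 0 ∨ x = x0) →
    (∀ y, Matrix.vecMul y B = 0 → y = 0 ∨ y = y0) →
    Fintype.card a + Fintype.card c ≤ Fintype.card b + 2

/-- row CHI.  Proof: LIN with `a = verts z`, `b = eds z`, `c = z'` (as subtypes), `A e v = 1` iff `v ∈ e`, `B τ e = 1` iff `e ⊆ τ`.
`B A = 0`: for `v ∈ τ` exactly two edges of `τ` contain `v`.  Kernel of `A`: `x` is constant along edges, so
`{τ ∈ z | x = 1 on τ}` is a cycle (an edge of `z` lies only in triangles with the same value), hence `∅` or `z`, so `x = 0` or `x = 1`.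
Left kernel of `B`: `{τ ∈ z' | y τ = 1}` is a cycle, hence `∅` or `z`. -/
def CHI_stmt : Prop := LIN_stmt →
  ∀ (V : Type) [DecidableEq V] (G : V → V → Prop) (z z' : Finset (Finset V)), Cyc G z → z ⊆ z' →
    (∀ τ ∈ z', τ.card = 3 ∧ Cliq G τ) → eds z' = eds z →
    (∀ y, Cyc G y → y ⊆ z' → y = ∅ ∨ y = z) →
    (verts z).card + z'.card ≤ (eds z).card + 2

/-- row ARC.  Proof: `decide` (or a short case analysis): `S` = set of edges `{k,k+1}` of the hexagon; vertex `k` lies on the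
edges `k` and `k-1`. -/
def ARC_stmt : Prop :=
  ∀ (S : Finset (ZMod 6)) (i j : ZMod 6),
    (∀ k : ZMod 6, Even ((if k ∈ S then 1 else 0) + (if k - 1 ∈ S then 1 else 0) +
      (if k = i then 1 else 0) + (if k = j then 1 else 0) : ℕ)) →
    i ≠ j → j ≠ i + 1 → i ≠ j + 1 → 2 ≤ S.card ∧ S.card ≤ 4

/-- row SPT (chord triangles are homologically independent).  Proof: let `I = y ∩ ZP`, `s = y ∩ z`.  `I = ∅`: SBC.  Suppose `I ≠ ∅`; we derive a
contradiction.  `z1 = y`, `z2 = z ∆ y = (z \ s) ∪ I` are cycles and `wt z1 + wt z2 = 1`, so one of them has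
`≥ card z` elements: `card I ≥ card (z \ s)` or `card I ≥ card s`.  For `τ ∈ I` with apex `v`: the link of `y` at `v` is even (LNK), it consists of edges of the
hexagon `lk z v` and the one chord `τ.erase v` (no other member of `ZP` contains `v`), so by ARC at least 2 and at most 4 of the six triangles of `z` at
`v` are in `s`: at least 2 are in `s` and at least 2 in `z \ s`.  These stars are disjoint for different `τ` (no
triangle of `z` contains two apexes), so `card s ≥ 2 card I` and `card (z \ s) ≥ 2 card I`: contradiction. -/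
def SPT_stmt : Prop := CYA_stmt → SBC_stmt → LNK_stmt → ARC_stmt →
  ∀ (V : Type) [DecidableEq V] (G : V → V → Prop) (Ω : Finset V → ZMod 2) (z ZP : Finset (Finset V))
    (ap : Finset V → V), MinC G Ω z →
    (∀ τ ∈ ZP, τ.card = 3 ∧ Cliq G τ ∧ τ ∉ z ∧ ap τ ∈ τ ∧
      (∃ u : ZMod 6 → V, Function.Injective u ∧ lk z (ap τ) = hexE u ∧
        ∀ a ∈ τ, a ≠ ap τ → ∃ i, a = u i) ∧
      (∀ τ' ∈ ZP, τ' ≠ τ → ap τ ∉ τ') ∧
      (∀ τ' ∈ ZP, τ' ≠ τ → ∀ ρ ∈ z, ap τ ∈ ρ → ap τ' ∉ ρ)) →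
    ∀ y, Cyc G y → y ⊆ z ∪ ZP → y = ∅ ∨ y = z

/-- row CMB (assembly of part C).  Proof: a cycle of weight 1 with the least number of triangles exists: `z`, `MinC G Ω z`.
For `v ∈ verts z`: if `v ∉ Bl` then `verts (lk z v)` consists of neighbours of `v` (LNK), so has `≤ 6` elements, and by KAP, LNK, TRF `kh z v ≥ 0`, with
equality only if `lk z v = hexE u`; then `u i` are 6 neighbours, so ALL neighbours of `v`.  If `v ∈ Bl` then
`kh z v ≥ 6 - M ≥ - M`.  Let `pos = {v ∈ verts z \ Bl | kh z v ≥ 1}`.  A spot is a `v ∈ verts z`, `v ∉ Bl ∪ pos`, with no neighbour in `Bl ∪ pos`, and such that two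
non-consecutive `u i, u j` are adjacent.  Then `τ = {v, u i, u j}` is a 3-clique not in `z`, and its edges are in `eds z`: `{v,u i}` clear; `u i ∉ Bl ∪ pos`
so all neighbours of `u i` are in its link, i.e. `{u i, u j} ∈ eds z`.  Let `P` be a maximal set of pairwise
non-adjacent spots (subsets of `verts z`), `ZP` the set of their triangles `τ_v`, `ap τ_v = v`.  SPT and CHI (`z' = z ∪ ZP`) give
`V + T + card P ≤ E + 2`, and SUM gives `card pos - M card Bl ≤ Σ kh = 6 (V - E + T) ≤ 12 - 6 card P`.  Put `Bc = Bl ∪ pos ∪ P`.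
If `v ∈ verts z`, `v ∉ Bc` and no neighbour of `v` is in `Bc` then `v` is not a spot (maximality of `P`), so the neighbourhood of `v` is
exactly the induced hexagon `u`, and the `u i` are in `verts z`. -/
def CMB_stmt : Prop := CYA_stmt → SBC_stmt → TRF_stmt → LNK_stmt → KAP_stmt → SUM_stmt → LIN_stmt →
  CHI_stmt → ARC_stmt → SPT_stmt →
  ∀ (V : Type) [DecidableEq V] (G : V → V → Prop) (Ω : Finset V → ZMod 2) (Bl : Finset V) (M : ℕ),
    (∀ x y, G x y → G y x) → (∀ x, ¬ G x x) →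
    (∀ (v : V) (S : Finset V), (∀ w ∈ S, G v w) → S.card ≤ M) →
    (∀ v ∉ Bl, ∀ S : Finset V, (∀ w ∈ S, G v w) → S.card ≤ 6) →
    Coc G Ω → (∃ z0, Cyc G z0 ∧ wt Ω z0 = 1) →
    ∃ (z : Finset (Finset V)) (Bc : Finset V), Cyc G z ∧ wt Ω z = 1 ∧ Bl ⊆ Bc ∧
      Bc.card ≤ (M + 1) * Bl.card + 12 ∧
      ∀ v ∈ verts z, v ∉ Bc → (∀ w, G v w → w ∉ Bc) → HexN G v ∧ ∀ w, G v w → w ∈ verts z

/-! ## PART D: the perfect colouring -/

/-- a wheel: the neighbourhood is an induced hexagon and all seven colours are different -/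
def W {V : Type} (G : V → V → Prop) (c : V → Fin 7) (v : V) : Prop :=
  HexN G v ∧ (∀ w w', G v w → G v w' → c w = c w' → w = w') ∧ ∀ w, G v w → c w ≠ c v

/-- around `v` the colouring is the perfect one (labelled by `σ`): consecutive neighbours have
`σ`-differences with ratio 3 or 5 = 1/3 -/
def Perf {V : Type} (G : V → V → Prop) (c : V → Fin 7) (σ : Fin 7 → ZMod 7) (v : V) : Prop :=
  ∀ a b, G v a → G v b → G a b →
    (σ (c b) - σ (c v) = 3 * (σ (c a) - σ (c v)) ∨ σ (c a) - σ (c v) = 3 * (σ (c b) - σ (c v)))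

/-- `v` and all its neighbours are wheels -/
def Deep {V : Type} (G : V → V → Prop) (c : V → Fin 7) (v : V) : Prop :=
  W G c v ∧ ∀ w, G v w → W G c w

/-- row PF1.  Let `u : ZMod 6 → V` be the hexagon of `v`, `k_i = c (u i)`.  The hexagon of `u i` is, in cyclic order,
`v, u (i+1), x_i, y_i, w_i, u (i-1)`, and `w_{i} = x_{i-1}` (the common neighbours of `u i, u (i-1)` are exactly two: in the hexagon of `u i` the
neighbours of `u (i-1)` are `v` and `w_i`; in the hexagon of `u (i-1)` the neighbours of `u i` are `v` and `x_{i-1}`).  The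
colours of `x_i, y_i, x_{i-1}` are the three colours `k_{i+2}, k_{i+3}, k_{i+4}`.  So `c x_i ∈ {k_{i+2},k_{i+3},k_{i+4}} ∩
{k_{i+3},k_{i+4},k_{i+5}} = {k_{i+3},k_{i+4}}`.  If `c x_{i-1} = k_{(i-1)+4} = k_{i+3}` then `c x_i ≠ c x_{i-1}` gives `c x_i = k_{i+4}`.  Going around: either
`c x_i = k_{i+4}` for all `i` or `c x_i = k_{i+3}` for all `i`; `c y_i` is the remaining colour (`k_{i+2}`, resp. `k_{i+4}`).
Put `σ (c v) = 0`, `σ k_i = 3^i` (first case), resp. `σ k_i = 5^i` (second case).  `Perf σ v` is clear; `Perf σ (u i)`: the differences from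
`σ k_i` in the cyclic order `v, u(i+1), x_i, y_i, w_i, u (i-1)` are (first case) `3^{i+3}, 3^{i+2}, 3^{i+1}, 3^i, 3^{i-1}, 3^{i-2}`, and in the second
case the same with 5 in place of 3.  (Finite check.) -/
def PF1_stmt : Prop :=
  ∀ (V : Type) (G : V → V → Prop) (c : V → Fin 7) (v : V), (∀ x y, G x y → G y x) →
    (∀ x, ¬ G x x) → Deep G c v →
    ∃ σ : Fin 7 → ZMod 7, Function.Bijective σ ∧ Perf G c σ v ∧ ∀ w, G v w → Perf G c σ w

/-- row PF2 (uniqueness).  Let `u` be the hexagon of `v` with `u 0 = w`, `k_i = c (u i)`.  By `Perf σ v` the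
differences `d_i = σ k_i - σ (c v)` satisfy `d_{i+1} = 3 d_i` or `d_i = 3 d_{i+1}`; they are distinct and nonzero, so the
choice is the same for all `i` (otherwise `d_{i+2} = d_i`); reversing the hexagon we may assume `d_i = 3^i d_0` for `σ`.  For `σ'` either
`d'_i = 3^i d'_0`: then `σ'` is an affine image of `σ`, done; or `d'_i = 5^i d'_0`.  Exclude the latter: let `x ≠ v` be the other common
neighbour of `w = u 0` and `u 1` in the hexagon of `w`.  In that hexagon `v, u 1, x` are consecutive; `Perf σ w` gives (differences from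
`σ (c w)`: `-d_0`, `2 d_0`, ratio 5) that `x` has difference `5 * 2 d_0 = 3 d_0`, so `σ (c x) - σ (c v) = 4 d_0 = 3^4 d_0`, `c x = k_4`; `Perf σ' w` gives
(differences `-d'_0`, `4 d'_0`, ratio 3) difference `12 d'_0 = 5 d'_0`, so `σ' (c x) - σ' (c v) = 6 d'_0 = 5^3 d'_0`, `c x = k_3`. Contradiction.
(The direction at `w` is constant for the same reason as at `v`.) -/
def PF2_stmt : Prop :=
  ∀ (V : Type) (G : V → V → Prop) (c : V → Fin 7) (v w : V) (σ σ' : Fin 7 → ZMod 7),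
    (∀ x y, G x y → G y x) → (∀ x, ¬ G x x) → W G c v → W G c w → G v w →
    Function.Bijective σ → Function.Bijective σ' →
    Perf G c σ v → Perf G c σ w → Perf G c σ' v → Perf G c σ' w →
    ∃ a b : ZMod 7, a ≠ 0 ∧ ∀ k, σ' k = a * σ k + b

/-- row PF3 (propagation).  Proof: PF1 at `w` gives `σ'`, perfect at `w` and at the neighbours of `w`, among them `v`.  PF2 gives
`σ' = a σ + b`, and `Perf` is invariant under affine changes (`a ≠ 0` is a unit of `ZMod 7`), so `σ` is perfect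
where `σ'` is. -/
def PF3_stmt : Prop := PF1_stmt → PF2_stmt →
  ∀ (V : Type) (G : V → V → Prop) (c : V → Fin 7) (v w : V) (σ : Fin 7 → ZMod 7),
    (∀ x y, G x y → G y x) → (∀ x, ¬ G x x) → Deep G c v → Deep G c w → G v w →
    Function.Bijective σ → Perf G c σ v → (∀ u, G v u → Perf G c σ u) →
    Perf G c σ w ∧ ∀ u, G w u → Perf G c σ u

/-! ## PART E: area -/

/-- the six lattice vectors of the hexagonal lattice, labelled by the nonzero elements of `ZMod 7` -/
def uu (d : ZMod 7) : ℤ × ℤ :=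
  (![(0, 0), (1, 0), (-1, 1), (0, 1), (0, -1), (1, -1), (-1, 0)] : Fin 7 → ℤ × ℤ) d

def det2 (p q : ℤ × ℤ) : ℤ := p.1 * q.2 - p.2 * q.1

def dl {V : Type} (c : V → Fin 7) (σ : Fin 7 → ZMod 7) (p q : V) : ℤ × ℤ := uu (σ (c q) - σ (c p))

def al {V : Type} (c : V → Fin 7) (σ : Fin 7 → ZMod 7) (p q s : V) : ℤ :=
  det2 (dl c σ p q) (dl c σ q s)

/-- row UUU.  Proof: `decide`. -/
def UUU_stmt : Prop :=
  uu 0 = 0 ∧ (∀ d, uu (-d) = - uu d) ∧ (∀ d, uu d + uu (2 * d) = uu (3 * d)) ∧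
  (∀ d, d ≠ 0 → det2 (uu d) (uu (2 * d)) = 1) ∧
  (∀ d, |(uu d).1| ≤ 1 ∧ |(uu d).2| ≤ 1) ∧ ∀ d e, |det2 (uu d) (uu e)| ≤ 1

/-- corners pairwise equal or adjacent -/
def Tri {V : Type} (G : V → V → Prop) (p q s : V) : Prop :=
  (p = q ∨ G p q) ∧ (q = s ∨ G q s) ∧ (s = p ∨ G s p)

/-- row TRI.  Proof: degenerate cases: `uu 0 = 0`, `uu (-d) = -uu d`.  Otherwise `G p q`, `G p s`, `G q s`, so by `Perf σ p`, with `d = σ(c q) - σ(c p)`,
`e = σ (c s) - σ (c p)`, either `e = 3 d` and the three vectors are `uu d, uu (2d), uu (-3d)`, or `d = 3 e` and they are `uu (3e), uu (-2e), uu (-e)`. -/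
def TRI_stmt : Prop := UUU_stmt →
  ∀ (V : Type) (G : V → V → Prop) (c : V → Fin 7) (σ : Fin 7 → ZMod 7) (p q s : V),
    (∀ x y, G x y → G y x) → Function.Injective σ → Perf G c σ p → Tri G p q s →
    dl c σ p q + dl c σ q s + dl c σ s p = 0 ∧
    (c q ≠ c p → σ (c s) - σ (c p) = 3 * (σ (c q) - σ (c p)) →
      al c σ p q s = 1 ∧ al c σ q s p = 1 ∧ al c σ s p q = 1 ∧
      al c σ p s q = -1 ∧ al c σ s q p = -1 ∧ al c σ q p s = -1)

/-- signed indicator: `(a,b,c)` is an even (+1) or odd (-1) permutation of `(x,y,w)` (0 if degenerate) -/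
def ind {V : Type} [DecidableEq V] (x y w a b c : V) : ℤ :=
  (if a = x ∧ b = y ∧ c = w then 1 else 0) + (if b = x ∧ c = y ∧ a = w then 1 else 0) +
  (if c = x ∧ a = y ∧ b = w then 1 else 0) - (if b = x ∧ a = y ∧ c = w then 1 else 0) -
  (if a = x ∧ c = y ∧ b = w then 1 else 0) - (if c = x ∧ b = y ∧ a = w then 1 else 0)

def cnt {V ι : Type} [DecidableEq V] [Fintype ι] (a b c : ι → V) (x y w : V) : ℤ :=
  ∑ f, ind x y w (a f) (b f) (c f)

/-- row CNA.  Proof: `q p s = [(p,s) = (x, u i)] - [(p,s) = (u i, x)]` is antisymmetric; by `Clo`,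
`0 = Σ_f (q a b + q b c + q c a)`.  For a degenerate `f` the summand is 0.  For a nondegenerate `f` it is nonzero only if `x` and `u i` are corners;
the third corner `w` is adjacent to both, so `w = u j` with `G (u i) (u j)`, i.e. `w = u (i+1)` or `u (i-1)`; the summand is
`ind x (u i) (u (i+1)) a b c + ind x (u i) (u (i-1)) a b c`.  So `cnt x (u i) (u (i+1)) + cnt x (u i) (u (i-1)) = 0`, and `cnt x y w = - cnt x w y`.
(The last three items are symmetries of `ind`.) -/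
def CNA_stmt : Prop :=
  ∀ (V ι : Type) [DecidableEq V] [Fintype ι] (G : V → V → Prop) (a b c : ι → V) (x : V)
    (u : ZMod 6 → V), (∀ x y, G x y → G y x) → (∀ x, ¬ G x x) → Clo a b c →
    (∀ f, Tri G (a f) (b f) (c f)) → Function.Injective u → (∀ w, G x w ↔ ∃ i, w = u i) →
    (∀ i j, G (u i) (u j) ↔ (j = i + 1 ∨ i = j + 1)) →
    (∀ i, cnt a b c x (u i) (u (i + 1)) = cnt a b c x (u (i - 1)) (u i)) ∧
    (∀ x y w, cnt a b c x w y = - cnt a b c x y w) ∧ (∀ x y w, cnt a b c y w x = cnt a b c x y w) ∧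
    (∀ x y w, cnt a b c y x w = - cnt a b c x y w)

/-- all positively oriented triangles at `x` are covered `n` times -/
def Deg {V ι : Type} [DecidableEq V] [Fintype ι] (G : V → V → Prop) (col : V → Fin 7)
    (σ : Fin 7 → ZMod 7) (a b c : ι → V) (n : ℤ) (x : V) : Prop :=
  ∀ y w, G x y → G x w → G y w →
    σ (col w) - σ (col x) = 3 * (σ (col y) - σ (col x)) → cnt a b c x y w = n

/-- row CNC.  Proof: by CNA `cnt x (u i) (u (i+1))` does not depend on `i` (`= m`).  By `Perf σ x` and because the differences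
`d_i = σ (col (u i)) - σ (col x)` are distinct and nonzero, either `d_{i+1} = 3 d_i` for all `i` (positively oriented pairs are `(u i, u (i+1))`, take
`n = m`; a pair `(u (i+1), u i)` is not positive since `9 = 2 ≠ 1`), or `d_i = 3 d_{i+1}` for all `i` (`n = -m`). -/
def CNC_stmt : Prop := CNA_stmt →
  ∀ (V ι : Type) [DecidableEq V] [Fintype ι] (G : V → V → Prop) (col : V → Fin 7)
    (σ : Fin 7 → ZMod 7) (a b c : ι → V) (x : V), (∀ x y, G x y → G y x) → (∀ x, ¬ G x x) →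
    Clo a b c → (∀ f, Tri G (a f) (b f) (c f)) → Function.Injective σ → W G col x →
    Perf G col σ x → ∃ n : ℤ, Deg G col σ a b c n x

/-- row CND.  Proof: `y = u i` in the hexagon of `x`; one of `w = u (i+1), u (i-1)` has `σ w - σ x = 3 (σ y - σ x)` (see CNC), so `cnt x y w = n`.  Then
`σ x - σ y = 3 (σ w - σ y)` (with `d = σ y - σ x`: `σ w - σ y = 2d`, `-d = 6d`), i.e. `(w, x)` is a positive pair at `y` and
`cnt y w x = cnt x y w = n`.  By CNC at `y` the degree at `y` is `n`. -/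
def CND_stmt : Prop := CNA_stmt → CNC_stmt →
  ∀ (V ι : Type) [DecidableEq V] [Fintype ι] (G : V → V → Prop) (col : V → Fin 7)
    (σ : Fin 7 → ZMod 7) (a b c : ι → V) (x y : V) (n : ℤ), (∀ x y, G x y → G y x) →
    (∀ x, ¬ G x x) → Clo a b c → (∀ f, Tri G (a f) (b f) (c f)) → Function.Injective σ →
    W G col x → W G col y → G x y → Perf G col σ x → Perf G col σ y →
    Deg G col σ a b c n x → Deg G col σ a b c n y

/-- the sum of `al` over the triangles with corner `x` (with multiplicity) -/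
def SS {V ι : Type} [DecidableEq V] [Fintype ι] (col : V → Fin 7) (σ : Fin 7 → ZMod 7)
    (a b c : ι → V) (x : V) : ℤ :=
  ∑ f, ((if a f = x then 1 else 0) + (if b f = x then 1 else 0) + (if c f = x then 1 else 0)) *
    al col σ (a f) (b f) (c f)

/-- row CNE.  Proof: orient the hexagon `u` of `x` so that `σ (u (i+1)) - σ x = 3 (σ (u i) - σ x)` for all `i` (reverse it if necessary, see CNC).
For each `f`: `(number of corners equal to x) * al = Σ_i ind x (u i) (u (i+1)) (a f) (b f) (c f)`: if `f` is degenerate both sides are `0`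
(`al = 0`: `uu 0 = 0`, `det2 v (-v) = 0`); if `x` is no corner both are 0; otherwise the two other
corners are adjacent neighbours of `x`, i.e. `{u i, u (i+1)}` for exactly one `i`, and `al = 1` or `-1` (TRI) according to the
orientation.  Summing over `f`: `SS x = Σ_i cnt x (u i) (u (i+1)) = 6 n`. -/
def CNE_stmt : Prop := UUU_stmt → TRI_stmt → CNA_stmt → CNC_stmt →
  ∀ (V ι : Type) [DecidableEq V] [Fintype ι] (G : V → V → Prop) (col : V → Fin 7)
    (σ : Fin 7 → ZMod 7) (a b c : ι → V) (x : V) (n : ℤ), (∀ x y, G x y → G y x) →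
    (∀ x, ¬ G x x) → Clo a b c → (∀ f, Tri G (a f) (b f) (c f)) → Function.Injective σ →
    W G col x → Perf G col σ x → Deg G col σ a b c n x → SS col σ a b c x = 6 * n

/-- row CNF (parity).  Proof: group the `f` by the set `τ = {a f, b f, c f}` of corners.  Degenerate `f` contribute 0.  For a 3-set
`τ = {x,y,w}` all its `f` have the same `ω` value; if it is nonzero, `cnt x y w = 0` for `(x,y,w) = (a f, b f, c f)` and
`cnt x y w ≡ #{f | corners = τ}` mod 2, so this number is even and the group contributes 0. -/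
def CNF_stmt : Prop :=
  ∀ (V ι : Type) [DecidableEq V] [Fintype ι] (a b c : ι → V) (ω : V → V → V → ZMod 2), Sym3 ω →
    (∀ f, ω (a f) (b f) (c f) ≠ 0 → cnt a b c (a f) (b f) (c f) = 0) →
    ∑ f, ω (a f) (b f) (c f) = 0

/-- row TOT.  Let `X` be the set of all corners (and `Dp`).  `Σ_{x∈X} SS x = 3 Σ_f al`.  The `x ∈ Dp` contribute `6n` each.  The
`x ∉ Dp` contribute in absolute value at most `Σ_{f has a corner outside Dp} 3 ≤ 3B` (`|al| ≤ 1`).  So
`6 |n| card Dp ≤ 3 |Σ al| + 3 B`. -/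
def TOT_stmt : Prop := UUU_stmt →
  ∀ (V ι : Type) [DecidableEq V] [Fintype ι] (col : V → Fin 7) (σ : Fin 7 → ZMod 7)
    (a b c : ι → V) (n : ℤ) (Dp : Finset V) (B : ℕ), n ≠ 0 →
    (∀ x ∈ Dp, SS col σ a b c x = 6 * n) →
    ((Finset.univ : Finset ι).filter (fun f => a f ∉ Dp ∨ b f ∉ Dp ∨ c f ∉ Dp)).card ≤ B →
    2 * (Dp.card : ℤ) ≤ |∑ f, al col σ (a f) (b f) (c f)| + B

/-- row STK (discrete Stokes on the grid).  Let `Φ i j = Σ_{k<j} Vv i k`, `S i = Σ_{j<n} det2 (Φ i j) (Vv i j)`,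
`curl i j = H i j + Vv (i+1) j - H i (j+1) - Vv i j`, `K i j = Σ_{k<j} curl i k`.  Then `Φ (i+1) j = Φ i j + H i j + K i j` (`H i 0 = 0`)
and `Vv (i+1) j = Vv i j + H i (j+1) - H i j + curl i j`.  So `S (i+1) - S i = Σ_j [det2 (H i j) (Vv (i+1) j) + det2 (K i j) (Vv (i+1) j) +
det2 (Φ i j) (H i (j+1) - H i j) + det2 (Φ i j) (curl i j)]`, and by summation by parts (`Φ i 0 = 0`, `H i n = 0`)
`Σ_j det2 (Φ i j) (H i (j+1) - H i j) = - Σ_j det2 (Vv i j) (H i (j+1))`.  Sum over `i` (cyclic): the main sum equals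
`- Σ_i Σ_j [det2 (K i j) (Vv (i+1) j) + det2 (Φ i j) (curl i j)]`.  With `b_i` the number of bad squares in column `i`:
components of `curl` are `≤ 4`, of `K i j` are `≤ 4 b_i`, of `Φ` are `≤ n`, so the two terms are at most `8 b_i n` each. -/
def STK_stmt : Prop :=
  ∀ (m n : ℕ) [NeZero m] (H Vv : ZMod m → ℕ → ℤ × ℤ) (B : Finset (ZMod m × ℕ)),
    (∀ i j, |(H i j).1| ≤ 1 ∧ |(H i j).2| ≤ 1) → (∀ i j, |(Vv i j).1| ≤ 1 ∧ |(Vv i j).2| ≤ 1) →
    (∀ i, H i 0 = 0) → (∀ i, H i n = 0) →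
    (∀ i, ∀ j < n, (i, j) ∉ B → H i j + Vv (i + 1) j - H i (j + 1) - Vv i j = 0) →
    |∑ i, ∑ j ∈ range n, (det2 (H i j) (Vv (i + 1) j) - det2 (Vv i j) (H i (j + 1)))| ≤
      16 * B.card * n

/-! ## PART F: assembly (helper78) -/

/-- for `r ≥ r0` there is no configuration -/
def TOP_stmt : Prop :=
  ∀ (η L : ℝ) (M KB : ℕ), 0 < η → η ≤ 1 → 1 ≤ L → ∃ r0 : ℝ, ∀ r : ℝ, r0 ≤ r →
    ∀ (c : E3 → Fin 7) (φ : E3 → E3) (Bl : Finset E3), ¬ Cfg r η L M KB c φ Bl

end

end Pool.Agent.helper78.FS
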