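import Pool.Agent.helper78.FS.Fin6
import Pool.Agent.helper78.FS.UUU
import Pool.Agent.helper18.FS.ARC
import Pool.Agent.helper76.FS.AXS
import Pool.Agent.helper8.FS.CHI
import Pool.Agent.helper87.FS.CLU
import Pool.Agent.helper25.FS.CMB
import Pool.Agent.helper32.FS.CNA
import Pool.Agent.helper38.FS.CNC
import Pool.Agent.helper3.FS.CND
import Pool.Agent.helper65.FS.CNE
import Pool.Agent.helper46.FS.CNF
import Pool.Agent.helper18.FS.COC
import Pool.Agent.helper39.FS.CONX
import Pool.Agent.helper53.FS.CYA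
import Pool.Agent.helper39.FS.GCL
import Pool.Agent.helper44.FS.GCO
import Pool.Agent.helper74.FS.GDG
import Pool.Agent.helper50.FS.GDN
import Pool.Agent.helper53.FS.GPK
import Pool.Agent.helper36.FS.GSP
import Pool.Agent.helper39.FS.GST
import Pool.Agent.helper34.FS.IND
import Pool.Agent.helper16.FS.INZ
import Pool.Agent.helper34.FS.KAP
import Pool.Agent.helper79.FS.LFT
import Pool.Agent.helper79.FS.LIN
import Pool.Agent.helper13.FS.LNK
import Pool.Agent.helper53.FS.MRG
import Pool.Agent.helper44.FS.NB1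
import Pool.Agent.helper44.FS.NB2
import Pool.Agent.helper89.FS.NB3
import Pool.Agent.helper64.FS.NB4
import Pool.Agent.helper53.FS.NEA
import Pool.Agent.helper32.FS.PF1
import Pool.Agent.helper15.FS.PF2
import Pool.Agent.helper99.FS.PF3
import Pool.Agent.helper96.FS.PKG
import Pool.Agent.helper58.FS.POL
import Pool.Agent.helper42.FS.PRI
import Pool.Agent.helper95.FS.PSH
import Pool.Agent.helper36.FS.PTA
import Pool.Agent.helper30.FS.PTS
import Pool.Agent.helper53.FS.SBC
import Pool.Agent.helper79.FS.SIA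
import Pool.Agent.helper25.FS.SPT
import Pool.Agent.helper18.FS.STK
import Pool.Agent.helper11.FS.SUM
import Pool.Agent.helper77.FS.TOT
import Pool.Agent.helper87.FS.TRF
import Pool.Agent.helper19.FS.TRI

/-! All rows of the project FS together. -/

namespace Pool.Agent.helper78.FS

theorem TOP : TOP_stmt :=
  TOP_of AXS COC NEA IND GCO GST GDN GSP PKG GPK GCL GDG POL PTS CON LFT PRI PSH INZ CYA SBC TRF
    LNK KAP SUM LIN CHI ARC SPT CMB PF1 PF2 PF3 UUU TRI CNA CNC CND CNE CNF TOT STK

theorem Main : Main_stmt :=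
  Main_of TOP PTA SIA MRG PKG CLU NB1 NB2 NB3 NB4

end Pool.Agent.helper78.FS
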