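import Pool.Agent.helper78.FS.Spec

/-! Assembly of TOP, part 1: facts about the adjacency, the cochains, the grid. -/

namespace Pool.Agent.helper78.FS

open Finset Real
open Classical

noncomputable section

/-! ### adjacency -/

theorem Adj_symm {r η : ℝ} {φ : E3 → E3} (v w : E3) (h : Adj r η φ v w) : Adj r η φ w v := by
  obtain ⟨h1, x, y, hx, hy, h2, h3, h4⟩ := h
  exact ⟨h1.symm, y, x, hy, hx, h3, h2, by rwa [dist_comm]⟩

theorem Adj_irr {r η : ℝ} {φ : E3 → E3} (v : E3) : ¬ Adj r η φ v v := fun h => h.1 rfl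

theorem Adj_norm {r η L : ℝ} {M KB : ℕ} {c : E3 → Fin 7} {φ : E3 → E3} {Bl : Finset E3}
    (hC : Cfg r η L M KB c φ Bl) {v w : E3} (h : Adj r η φ v w) : ‖v‖ = r := by
  obtain ⟨h1, x, y, hx, hy, h2, h3, h4⟩ := h
  rw [← h2]; exact (hC.1 x hx).1

theorem Adj_dist {r η L : ℝ} {M KB : ℕ} {c : E3 → Fin 7} {φ : E3 → E3} {Bl : Finset E3}
    (hC : Cfg r η L M KB c φ Bl) (hη : η ≤ 1) {v w : E3} (h : Adj r η φ v w) :
    dist v w ≤ 2 * L + 1 := by
  obtain ⟨h1, x, y, hx, hy, h2, h3, h4⟩ := h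
  have a := (hC.1 x hx).2
  have b := (hC.1 y hy).2
  rw [h2] at a
  rw [h3] at b
  have := dist_triangle4 v x y w
  rw [dist_comm v x] at this
  linarith

theorem Adj_near {r η : ℝ} {φ : E3 → E3} {x y : E3} (hx : ‖x‖ = r) (hy : ‖y‖ = r)
    (h : dist x y ≤ η) : φ x = φ y ∨ Adj r η φ (φ x) (φ y) := by
  by_cases h1 : φ x = φ y
  · exact Or.inl h1
  · exact Or.inr ⟨h1, x, y, hx, hy, rfl, rfl, h⟩

theorem Adj_rep {r η : ℝ} {φ : E3 → E3} {v w : E3} (h : Adj r η φ v w) :
    ∃ x, ‖x‖ = r ∧ φ x = v := by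
  obtain ⟨h1, x, y, hx, hy, h2, h3, h4⟩ := h
  exact ⟨x, hx, h2⟩

/-! ### cochains -/

theorem kap_comm (t : ℝ) (a b : E3) : kap t b a = kap t a b := by
  unfold kap; congr 1; exact propext or_comm

theorem kap_self (t : ℝ) (a : E3) : kap t a a = 0 := by
  unfold kap
  rw [if_neg]
  rintro (h | h) <;> exact absurd h.1 (not_lt.2 h.2.1)

theorem chi_comm (t : ℝ) (a b : E3) : chi t b a = chi t a b := by
  unfold chi; congr 1; exact propext or_comm

theorem om_sym (t : ℝ) : Sym3 (om t) := by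
  refine ⟨fun a b c => ?_, fun a b c => ?_, fun a b => ?_⟩
  · have e : dkap t b a c = dkap t a b c := by
      unfold dkap; rw [kap_comm t a b]; ring
    have e2 : (0 < zc t b ∧ 0 < zc t a ∧ 0 < zc t c) = (0 < zc t a ∧ 0 < zc t b ∧ 0 < zc t c) :=
      propext ⟨fun h => ⟨h.2.1, h.1, h.2.2⟩, fun h => ⟨h.2.1, h.1, h.2.2⟩⟩
    unfold om; rw [e]; simp only [e2]
  · have e : dkap t a c b = dkap t a b c := by
      unfold dkap; rw [kap_comm t b c]; ring
    have e2 : (0 < zc t a ∧ 0 < zc t c ∧ 0 < zc t b) = (0 < zc t a ∧ 0 < zc t b ∧ 0 < zc t c) :=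
      propext ⟨fun h => ⟨h.1, h.2.2, h.2.1⟩, fun h => ⟨h.1, h.2.2, h.2.1⟩⟩
    unfold om; rw [e]; simp only [e2]
  · unfold om
    split_ifs
    · unfold dkap; rw [kap_self, zero_add]; exact CharTwo.add_self_eq_zero _
    · rfl

theorem sum_pc3 {V : Type} [DecidableEq V] (F : Finset V → ZMod 2) {a b c d : V} (hab : a ≠ b)
    (hac : a ≠ c) (had : a ≠ d) (hbc : b ≠ c) (hbd : b ≠ d) (hcd : c ≠ d) :
    ∑ τ ∈ ({a, b, c, d} : Finset V).powersetCard 3, F τ =
      F {b, c, d} + F {a, c, d} + F {a, b, d} + F {a, b, c} := by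
  have e : ({a, b, c, d} : Finset V).powersetCard 3 =
      {{b, c, d}, {a, c, d}, {a, b, d}, {a, b, c}} := by
    ext τ
    simp only [mem_powersetCard, mem_insert, mem_singleton]
    constructor
    · rintro ⟨h1, h2⟩
      have hcard : (({a, b, c, d} : Finset V) \ τ).card = 1 := by
        rw [card_sdiff_of_subset h1, h2]
        have : ({a, b, c, d} : Finset V).card = 4 := by
          rw [card_insert_of_notMem, card_insert_of_notMem, card_insert_of_notMem, card_singleton]
          · simpa using hcd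
          · simp [hbc, hbd]
          · simp [hab, hac, had]
        rw [this]
      obtain ⟨x, hx⟩ := card_eq_one.1 hcard
      have hτ : τ = ({a, b, c, d} : Finset V).erase x := by
        have h3 : ({a, b, c, d} : Finset V) \ ({a, b, c, d} \ τ) = τ := Finset.sdiff_sdiff_eq_self h1
        rw [← h3, hx, sdiff_singleton_eq_erase]
      have hxm : x ∈ ({a, b, c, d} : Finset V) := by
        have : x ∈ ({a, b, c, d} : Finset V) \ τ := by rw [hx]; exact mem_singleton_self x
        exact (mem_sdiff.1 this).1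
      simp only [mem_insert, mem_singleton] at hxm
      rcases hxm with rfl | rfl | rfl | rfl
      · left; rw [hτ]; ext y; simp only [mem_erase, mem_insert, mem_singleton]
        constructor
        · rintro ⟨h, rfl | h'⟩
          · exact absurd rfl h
          · exact h'
        · rintro (rfl | rfl | rfl)
          · exact ⟨hab.symm, by tauto⟩
          · exact ⟨hac.symm, by tauto⟩
          · exact ⟨had.symm, by tauto⟩
      · right; left; rw [hτ]; ext y; simp only [mem_erase, mem_insert, mem_singleton]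
        constructor
        · rintro ⟨h, h'⟩; tauto
        · rintro (rfl | rfl | rfl)
          · exact ⟨hab, by tauto⟩
          · exact ⟨hbc.symm, by tauto⟩
          · exact ⟨hbd.symm, by tauto⟩
      · right; right; left; rw [hτ]; ext y; simp only [mem_erase, mem_insert, mem_singleton]
        constructor
        · rintro ⟨h, h'⟩; tauto
        · rintro (rfl | rfl | rfl)
          · exact ⟨hac, by tauto⟩
          · exact ⟨hbc, by tauto⟩
          · exact ⟨hcd.symm, by tauto⟩
      · right; right; right; rw [hτ]; ext y; simp only [mem_erase, mem_insert, mem_singleton]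
        constructor
        · rintro ⟨h, h'⟩; tauto
        · rintro (rfl | rfl | rfl)
          · exact ⟨had, by tauto⟩
          · exact ⟨hbd, by tauto⟩
          · exact ⟨hcd, by tauto⟩
    · rintro (rfl | rfl | rfl | rfl)
      · exact ⟨by intro y; simp only [mem_insert, mem_singleton]; tauto,
          card_eq_three.2 ⟨b, c, d, hbc, hbd, hcd, rfl⟩⟩
      · exact ⟨by intro y; simp only [mem_insert, mem_singleton]; tauto,
          card_eq_three.2 ⟨a, c, d, hac, had, hcd, rfl⟩⟩
      · exact ⟨by intro y; simp only [mem_insert, mem_singleton]; tauto,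
          card_eq_three.2 ⟨a, b, d, hab, had, hbd, rfl⟩⟩
      · exact ⟨by intro y; simp only [mem_insert, mem_singleton]; tauto,
          card_eq_three.2 ⟨a, b, c, hab, hac, hbc, rfl⟩⟩
  rw [e, sum_insert, sum_insert, sum_insert, sum_singleton]
  · ring
  · intro h
    rw [mem_singleton] at h
    have : d ∈ ({a, b, c} : Finset V) := by rw [← h]; simp
    simp only [mem_insert, mem_singleton] at this
    rcases this with h | h | h
    · exact had h.symm
    · exact hbd h.symm
    · exact hcd h.symm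
  · intro h
    simp only [mem_insert, mem_singleton] at h
    rcases h with h | h
    · have : c ∈ ({a, b, d} : Finset V) := by rw [← h]; simp
      simp only [mem_insert, mem_singleton] at this
      rcases this with h | h | h
      · exact hac h.symm
      · exact hbc h.symm
      · exact hcd h
    · have : d ∈ ({a, b, c} : Finset V) := by rw [← h]; simp
      simp only [mem_insert, mem_singleton] at this
      rcases this with h | h | h
      · exact had h.symm
      · exact hbd h.symm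
      · exact hcd h.symm
  · intro h
    simp only [mem_insert, mem_singleton] at h
    have : a ∈ ({b, c, d} : Finset V) := by
      rcases h with h | h | h <;> rw [h] <;> simp
    simp only [mem_insert, mem_singleton] at this
    rcases this with h | h | h
    · exact hab h
    · exact hac h
    · exact had h

/-- the cochain is a cocycle on the cliques of clusters -/
theorem Coc_of (hAXS : AXS_stmt) (hCOC : COC_stmt) (hLFT : LFT_stmt) {r η L : ℝ} {M KB : ℕ}
    {c : E3 → Fin 7} {φ : E3 → E3} {Bl : Finset E3}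
    (hC : Cfg r η L M KB c φ Bl) (hη : η ≤ 1) (hL : 1 ≤ L) (hr : 10 * (2 * L + 1) ≤ r) (t : ℝ) :
    Coc (Adj r η φ) (Lft (om t)) := by
  intro Q hQ hcl
  obtain ⟨a, Q', haQ, rfl, hQ'⟩ := card_eq_succ.1 hQ
  obtain ⟨b, c', d, hbc, hbd, hcd, rfl⟩ := card_eq_three.1 hQ'
  have hab : a ≠ b := by rintro rfl; simp at haQ
  have hac : a ≠ c' := by rintro rfl; simp at haQ
  have had : a ≠ d := by rintro rfl; simp at haQ
  have g1 : Adj r η φ a b := hcl a (by simp) b (by simp) hab
  have g2 : Adj r η φ a c' := hcl a (by simp) c' (by simp) hac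
  have g3 : Adj r η φ a d := hcl a (by simp) d (by simp) had
  have g4 : Adj r η φ b c' := hcl b (by simp) c' (by simp) hbc
  have g5 : Adj r η φ b d := hcl b (by simp) d (by simp) hbd
  have g6 : Adj r η φ c' d := hcl c' (by simp) d (by simp) hcd
  have e : (insert a ({b, c', d} : Finset E3)) = ({a, b, c', d} : Finset E3) := rfl
  rw [e, sum_pc3 _ hab hac had hbc hbd hcd, hLFT E3 (om t) (om_sym t), hLFT E3 (om t) (om_sym t),
    hLFT E3 (om t) (om_sym t), hLFT E3 (om t) (om_sym t)]
  exact hCOC hAXS t (2 * L + 1) r a b c' d (by linarith) hr (Adj_norm hC g1) (Adj_norm hC g4)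
    (Adj_norm hC g6) (Adj_norm hC (Adj_symm _ _ g3)) (Adj_dist hC hη g1) (Adj_dist hC hη g2)
    (Adj_dist hC hη g3) (Adj_dist hC hη g4) (Adj_dist hC hη g5) (Adj_dist hC hη g6)

/-! ### grid -/

theorem ta_comp {V W' : Type} {n : ℕ} (φ : V → W') (g : ZMod (2 * n) → ℕ → V) (f : FI n) :
    ta (fun i j => φ (g i j)) f = φ (ta g f) := by
  unfold ta; split_ifs <;> rfl
theorem tb_comp {V W' : Type} {n : ℕ} (φ : V → W') (g : ZMod (2 * n) → ℕ → V) (f : FI n) :
    tb (fun i j => φ (g i j)) f = φ (tb g f) := by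
  unfold tb; split_ifs <;> rfl
theorem tc_comp {V W' : Type} {n : ℕ} (φ : V → W') (g : ZMod (2 * n) → ℕ → V) (f : FI n) :
    tc (fun i j => φ (g i j)) f = φ (tc g f) := by
  unfold tc; split_ifs <;> rfl

/-- the corners of a fine triangle: norms and distances -/
theorem grid_f (hGCO : GCO_stmt) (hGST : GST_stmt) (t r η : ℝ) (n : ℕ) [NeZero n] (hr : 0 < r)
    (hn : 2 * r * π / n ≤ η) (f : FI n) :
    (‖ta (gr t r n) f‖ = r ∧ ‖tb (gr t r n) f‖ = r ∧ ‖tc (gr t r n) f‖ = r) ∧
    dist (ta (gr t r n) f) (tb (gr t r n) f) ≤ η ∧ dist (tb (gr t r n) f) (tc (gr t r n) f) ≤ η ∧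
    dist (tc (gr t r n) f) (ta (gr t r n) f) ≤ η := by
  obtain ⟨i, j, s⟩ := f
  have hn0 : (0 : ℝ) < n := by exact_mod_cast Nat.pos_of_ne_zero (NeZero.ne n)
  have h0 : 0 ≤ r * π / n := by positivity
  have h2 : 2 * (r * π / n) ≤ η := by
    have : 2 * (r * π / n) = 2 * r * π / n := by ring
    rw [this]; exact hn
  have h1 : r * π / n ≤ η := by linarith
  have hn' : ∀ (i : ZMod (2 * n)) (j : ℕ), ‖gr t r n i j‖ = r := fun i j =>
    (hGCO t r n hr.le i j).2.2.2.1
  have hH : ∀ (i : ZMod (2 * n)) (j : ℕ), j ≤ n →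
      dist (gr t r n i j) (gr t r n (i + 1) j) ≤ r * π / n := fun i j hj =>
    (hGST t r n hr.le i j hj).1
  have hV : ∀ (i : ZMod (2 * n)) (j : ℕ), j < n →
      dist (gr t r n i j) (gr t r n i (j + 1)) ≤ r * π / n := fun i j hj =>
    (hGST t r n hr.le i j hj.le).2 hj
  have hj := j.2
  cases s
  · simp only [ta, tb, tc, Bool.false_eq_true, if_false]
    refine ⟨⟨hn' _ _, hn' _ _, hn' _ _⟩, (hH i j hj.le).trans h1, (hV (i + 1) j hj).trans h1, ?_⟩
    rw [dist_comm]
    have := dist_triangle (gr t r n i j) (gr t r n (i + 1) j) (gr t r n (i + 1) (j + 1))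
    have a1 := hH i j hj.le
    have a2 := hV (i + 1) j hj
    linarith
  · simp only [ta, tb, tc, if_true]
    refine ⟨⟨hn' _ _, hn' _ _, hn' _ _⟩, ?_, ?_, ?_⟩
    · rw [dist_comm]; exact (hH i (j + 1) hj).trans h1
    · rw [dist_comm]; exact (hV i j hj).trans h1
    · have := dist_triangle (gr t r n i j) (gr t r n (i + 1) j) (gr t r n (i + 1) (j + 1))
      have a1 := hH i j hj.le
      have a2 := hV (i + 1) j hj
      linarith

theorem grid_clo2 (hGCL : GCL_stmt) {V : Type} (n : ℕ) [NeZero n] (g : ZMod (2 * n) → ℕ → V)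
    (h0 : ∀ i i', g i 0 = g i' 0) (hn : ∀ i i', g i n = g i' n) : Clo2 (ta g) (tb g) (tc g) := by
  intro q hq hs
  refine hGCL V (ZMod 2) n g q h0 hn hq (fun x y => ?_)
  rw [hs x y, CharTwo.neg_eq]

theorem grid_clo (hGCL : GCL_stmt) {V : Type} (n : ℕ) [NeZero n] (g : ZMod (2 * n) → ℕ → V)
    (h0 : ∀ i i', g i 0 = g i' 0) (hn : ∀ i i', g i n = g i' n) : Clo (ta g) (tb g) (tc g) := by
  intro q hq hs
  exact hGCL V ℤ n g q h0 hn hq hs

/-- the pushed forward family has degree one -/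
theorem deg_one (hAXS : AXS_stmt) (hCOC : COC_stmt) (hGCO : GCO_stmt) (hGST : GST_stmt)
    (hGCL : GCL_stmt) (hGDG : GDG_stmt) (hPRI : PRI_stmt) {r η L : ℝ} {M KB : ℕ}
    {c : E3 → Fin 7} {φ : E3 → E3} {Bl : Finset E3}
    (hC : Cfg r η L M KB c φ Bl) (hη : η ≤ 1) (hL : 1 ≤ L)
    (hr : 10 * (2 * L + 1) ≤ r) (n : ℕ) [NeZero n] (hn : 2 * r * π / n ≤ η) (hn3 : 3 ≤ n) (t : ℝ) :
    ∑ f : FI n, om t (φ (ta (gr t r n) f)) (φ (tb (gr t r n) f)) (φ (tc (gr t r n) f)) = 1 := by
  have hr0 : 0 < r := by linarith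
  rw [← hGDG hGCO t r n hr0 hn3]
  refine hPRI hAXS hCOC (FI n) (ta (gr t r n)) (tb (gr t r n)) (tc (gr t r n)) φ t (2 * L + 1) r
    (by linarith) hr ?_ ?_
  · refine grid_clo2 hGCL n _ (fun i i' => ?_) (fun i i' => ?_)
    · rw [(hGCO t r n hr0.le i 0).2.2.2.2.1, (hGCO t r n hr0.le i' 0).2.2.2.2.1]
    · rw [(hGCO t r n hr0.le i 0).2.2.2.2.2, (hGCO t r n hr0.le i' 0).2.2.2.2.2]
  · intro f
    obtain ⟨⟨na, nb, nc⟩, dab, dbc, dca⟩ := grid_f hGCO hGST t r η n hr0 hn f
    set A := ta (gr t r n) f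
    set B := tb (gr t r n) f
    set C := tc (gr t r n) f
    have key : ∀ x ∈ ({A, B, C, φ A, φ B, φ C} : Set E3),
        ‖x‖ = r ∧ ∃ x0 ∈ ({A, B, C} : Set E3), dist x x0 ≤ L := by
      intro x hx
      simp only [Set.mem_insert_iff, Set.mem_singleton_iff] at hx
      have hL0 : 0 ≤ L := by linarith
      rcases hx with rfl | rfl | rfl | rfl | rfl | rfl
      · exact ⟨na, A, by simp, by simpa using hL0⟩
      · exact ⟨nb, B, by simp, by simpa using hL0⟩
      · exact ⟨nc, C, by simp, by simpa using hL0⟩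
      · exact ⟨(hC.1 A na).1, A, by simp, by rw [dist_comm]; exact (hC.1 A na).2⟩
      · exact ⟨(hC.1 B nb).1, B, by simp, by rw [dist_comm]; exact (hC.1 B nb).2⟩
      · exact ⟨(hC.1 C nc).1, C, by simp, by rw [dist_comm]; exact (hC.1 C nc).2⟩
    have key2 : ∀ x0 ∈ ({A, B, C} : Set E3), ∀ y0 ∈ ({A, B, C} : Set E3), dist x0 y0 ≤ 1 := by
      intro x0 hx y0 hy
      simp only [Set.mem_insert_iff, Set.mem_singleton_iff] at hx hy
      rcases hx with rfl | rfl | rfl <;> rcases hy with rfl | rfl | rfl <;>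
        first
          | (rw [dist_self]; norm_num)
          | linarith
          | (rw [dist_comm]; linarith)
    intro x hx
    obtain ⟨h1, x0, hx0, h2⟩ := key x hx
    refine ⟨h1, fun y hy => ?_⟩
    obtain ⟨h3, y0, hy0, h4⟩ := key y hy
    have := dist_triangle4 x x0 y0 y
    have h5 := key2 x0 hx0 y0 hy0
    rw [dist_comm y y0] at h4
    linarith

/-- the triangles of the pushed forward family are cliques -/
theorem tri_f (hGCO : GCO_stmt) (hGST : GST_stmt) {r η : ℝ} {φ : E3 → E3} (hr0 : 0 < r)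
    (n : ℕ) [NeZero n] (hn : 2 * r * π / n ≤ η) (t : ℝ) (f : FI n) :
    Tri (Adj r η φ) (φ (ta (gr t r n) f)) (φ (tb (gr t r n) f)) (φ (tc (gr t r n) f)) := by
  obtain ⟨⟨na, nb, nc⟩, dab, dbc, dca⟩ := grid_f hGCO hGST t r η n hr0 hn f
  exact ⟨Adj_near na nb dab, Adj_near nb nc dbc, Adj_near nc na dca⟩

end

end Pool.Agent.helper78.FS
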