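import Pool.Agent.helper78.FS.Fin1

/-! Assembly of TOP, part 2: deep clusters, propagation, lower bound for the number of deep clusters. -/

namespace Pool.Agent.helper78.FS

open Finset Real
open Classical

noncomputable section

/-- output of CMB for a configuration -/
structure Zd (r η : ℝ) (φ : E3 → E3) (Bl : Finset E3) (z : Finset (Finset E3)) (Bc : Finset E3) :
    Prop where
  cyc : Cyc (Adj r η φ) z
  sub : Bl ⊆ Bc
  loc : ∀ v ∈ verts z, v ∉ Bc → (∀ w, Adj r η φ v w → w ∉ Bc) →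
    HexN (Adj r η φ) v ∧ ∀ w, Adj r η φ v w → w ∈ verts z

section
variable {r η L : ℝ} {M KB : ℕ} {c : E3 → Fin 7} {φ : E3 → E3} {Bl : Finset E3}
  {z : Finset (Finset E3)} {Bc : Finset E3}

theorem W_of (hC : Cfg r η L M KB c φ Bl) (hη : η ≤ 1) (hL : 1 ≤ L) (hz : Zd r η φ Bl z Bc) {v : E3}
    (hv : v ∈ verts z) (hf : ∀ b ∈ Bc, 2 * L + 1 < dist v b) :
    W (Adj r η φ) c v ∧ ∀ w, Adj r η φ v w → w ∈ verts z := by
  have hvB : v ∉ Bc := by
    intro h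
    have := hf v h
    rw [dist_self] at this
    linarith
  have hvBl : v ∉ Bl := fun h => hvB (hz.sub h)
  obtain ⟨h1, h2⟩ := hz.loc v hv hvB (fun w hw hwB => by
    have a := hf w hwB
    have b := Adj_dist hC hη hw
    linarith)
  exact ⟨⟨h1, hC.2.2.1 v hvBl, fun w hw => hC.2.2.2.1 v w hvBl hw⟩, h2⟩

theorem Deep_of (hC : Cfg r η L M KB c φ Bl) (hη : η ≤ 1) (hL : 1 ≤ L) (hz : Zd r η φ Bl z Bc)
    {v : E3} (hv : v ∈ verts z) (hf : ∀ b ∈ Bc, 3 * (2 * L + 1) < dist v b) :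
    Deep (Adj r η φ) c v ∧ ∀ w, Adj r η φ v w → w ∈ verts z := by
  obtain ⟨h1, h2⟩ := W_of hC hη hL hz hv (fun b hb => by
    have := hf b hb; linarith)
  refine ⟨⟨h1, fun w hw => (W_of hC hη hL hz (h2 w hw) (fun b hb => ?_)).1⟩, h2⟩
  have a := hf b hb
  have b' := Adj_dist hC hη hw
  have := dist_triangle v w b
  linarith

/-- the predicate that is propagated -/
def PP {ι : Type} [Fintype ι] (r η : ℝ) (φ : E3 → E3) (c : E3 → Fin 7) (z : Finset (Finset E3))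
    (σ : Fin 7 → ZMod 7) (A B C : ι → E3) (n : ℤ) (v : E3) : Prop :=
  v ∈ verts z ∧ Perf (Adj r η φ) c σ v ∧ (∀ u, Adj r η φ v u → Perf (Adj r η φ) c σ u) ∧
    Deg (Adj r η φ) c σ A B C n v

theorem far_phi (hC : Cfg r η L M KB c φ Bl) {x : E3} (hx : ‖x‖ = r) {D : ℝ}
    (hf : ∀ b ∈ Bc, D < dist x b) : ∀ b ∈ Bc, D - L < dist (φ x) b := by
  intro b hb
  have h1 := hf b hb
  have h2 := (hC.1 x hx).2
  have := dist_triangle x (φ x) b
  linarith

theorem PP_step (hCNA : CNA_stmt) (hCNC : CNC_stmt) (hCND : CND_stmt) (hPF1 : PF1_stmt)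
    (hPF2 : PF2_stmt) (hPF3 : PF3_stmt) (hC : Cfg r η L M KB c φ Bl) (hη : η ≤ 1) (hL : 1 ≤ L)
    (hz : Zd r η φ Bl z Bc) {ι : Type} [Fintype ι] {A B C : ι → E3} {σ : Fin 7 → ZMod 7} {n : ℤ}
    (hσ : Function.Bijective σ) (hclo : Clo A B C) (htri : ∀ f, Tri (Adj r η φ) (A f) (B f) (C f))
    {x y : E3} (hx : ‖x‖ = r) (hy : ‖y‖ = r) (hxy : dist x y ≤ η)
    (hfx : ∀ b ∈ Bc, 4 * (2 * L + 1) < dist x b) (hfy : ∀ b ∈ Bc, 4 * (2 * L + 1) < dist y b)
    (hP : PP r η φ c z σ A B C n (φ x)) : PP r η φ c z σ A B C n (φ y) := by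
  rcases Adj_near (φ := φ) hx hy hxy with h | h
  · rwa [← h]
  · obtain ⟨h1, h2, h3, h4⟩ := hP
    have fx : ∀ b ∈ Bc, 3 * (2 * L + 1) < dist (φ x) b := fun b hb => by
      have := far_phi hC hx hfx b hb; linarith
    have fy : ∀ b ∈ Bc, 3 * (2 * L + 1) < dist (φ y) b := fun b hb => by
      have := far_phi hC hy hfy b hb; linarith
    obtain ⟨dx, nx⟩ := Deep_of hC hη hL hz h1 fx
    have hyz : φ y ∈ verts z := nx _ h
    obtain ⟨dy, ny⟩ := Deep_of hC hη hL hz hyz fy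
    obtain ⟨p1, p2⟩ := hPF3 hPF1 hPF2 E3 (Adj r η φ) c (φ x) (φ y) σ Adj_symm Adj_irr dx dy h hσ
      h2 h3
    refine ⟨hyz, p1, p2, ?_⟩
    exact hCND hCNA hCNC E3 ι (Adj r η φ) c σ A B C (φ x) (φ y) n Adj_symm Adj_irr hclo htri
      hσ.injective dx.1 dy.1 h h2 p1 h4

/-- start: a deep vertex of `z` gives a labelling and a degree -/
theorem PP_start (hCNA : CNA_stmt) (hCNC : CNC_stmt) (hPF1 : PF1_stmt)
    (hC : Cfg r η L M KB c φ Bl) (hη : η ≤ 1) (hL : 1 ≤ L) (hz : Zd r η φ Bl z Bc)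
    {ι : Type} [Fintype ι] {A B C : ι → E3}
    (hclo : Clo A B C) (htri : ∀ f, Tri (Adj r η φ) (A f) (B f) (C f)) {v : E3}
    (hv : v ∈ verts z) (hf : ∀ b ∈ Bc, 3 * (2 * L + 1) < dist v b) :
    ∃ (σ : Fin 7 → ZMod 7) (n : ℤ), Function.Bijective σ ∧ PP r η φ c z σ A B C n v := by
  obtain ⟨dv, nv⟩ := Deep_of hC hη hL hz hv hf
  obtain ⟨σ, hσ, p1, p2⟩ := hPF1 E3 (Adj r η φ) c v Adj_symm Adj_irr dv
  obtain ⟨n, hn⟩ := hCNC hCNA E3 ι (Adj r η φ) c σ A B C v Adj_symm Adj_irr hclo htri hσ.injective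
    dv.1 p1
  exact ⟨σ, n, hσ, hv, p1, p2, hn⟩

/-- `SS` at a good vertex -/
theorem PP_SS (hUUU : UUU_stmt) (hTRI : TRI_stmt) (hCNA : CNA_stmt) (hCNC : CNC_stmt)
    (hCNE : CNE_stmt) (hC : Cfg r η L M KB c φ Bl) (hη : η ≤ 1) (hL : 1 ≤ L)
    (hz : Zd r η φ Bl z Bc) {ι : Type} [Fintype ι] {A B C : ι → E3} {σ : Fin 7 → ZMod 7} {n : ℤ}
    (hσ : Function.Bijective σ) (hclo : Clo A B C) (htri : ∀ f, Tri (Adj r η φ) (A f) (B f) (C f))
    {v : E3} (hf : ∀ b ∈ Bc, 3 * (2 * L + 1) < dist v b) (hP : PP r η φ c z σ A B C n v) :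
    SS c σ A B C v = 6 * n := by
  obtain ⟨h1, h2, h3, h4⟩ := hP
  obtain ⟨dv, nv⟩ := Deep_of hC hη hL hz h1 hf
  exact hCNE hUUU hTRI hCNA hCNC E3 ι (Adj r η φ) c σ A B C v n Adj_symm Adj_irr hclo htri
    hσ.injective dv.1 h2 h4

/-- the degree is not zero, given the parity count -/
theorem PP_ne (hCNA : CNA_stmt) (hCNF : CNF_stmt) {ι : Type} [Fintype ι] {A B C : ι → E3}
    {σ : Fin 7 → ZMod 7} {n : ℤ} {t : ℝ}
    (hclo : Clo A B C) (htri : ∀ f, Tri (Adj r η φ) (A f) (B f) (C f))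
    (hsum : ∑ f, om t (A f) (B f) (C f) = 1) (u : ZMod 6 → E3) (hu : Function.Injective u)
    (x0 : E3) (hx0 : ∀ w, Adj r η φ x0 w ↔ ∃ i, w = u i)
    (hu2 : ∀ i j, Adj r η φ (u i) (u j) ↔ (j = i + 1 ∨ i = j + 1))
    (hP : ∀ f, om t (A f) (B f) (C f) ≠ 0 → PP r η φ c z σ A B C n (A f)) : n ≠ 0 := by
  rintro rfl
  obtain ⟨-, s1, s2, s3⟩ := hCNA E3 ι (Adj r η φ) A B C x0 u Adj_symm Adj_irr hclo htri hu hx0 hu2
  have : ∑ f, om t (A f) (B f) (C f) = 0 := by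
    refine hCNF E3 ι A B C (om t) (om_sym t) (fun f hf => ?_)
    obtain ⟨h1, h2, h3, h4⟩ := hP f hf
    obtain ⟨o1, o2, o3⟩ := om_sym t
    obtain ⟨t1, t2, t3⟩ := htri f
    have nAB : A f ≠ B f := fun h => hf (by rw [← h]; exact o3 _ _)
    have nAC : A f ≠ C f := fun h => hf (by rw [o2, ← h]; exact o3 _ _)
    have nBC : B f ≠ C f := fun h => hf (by rw [← h, ← o1, ← o2]; exact o3 _ _)
    have gAB : Adj r η φ (A f) (B f) := t1.resolve_left nAB
    have gBC : Adj r η φ (B f) (C f) := t2.resolve_left nBC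
    have gAC : Adj r η φ (A f) (C f) := Adj_symm _ _ (t3.resolve_left nAC.symm)
    rcases h2 (B f) (C f) gAB gAC gBC with h | h
    · exact h4 (B f) (C f) gAB gAC gBC h
    · have := h4 (C f) (B f) gAC gAB (Adj_symm _ _ gBC) h
      rw [s1, ] at this
      omega
  rw [this] at hsum
  exact absurd hsum (by decide)

end

/-! ### counting -/

/-- the number of deep clusters -/
theorem count_deep (hGDN : GDN_stmt) (hPTS : PTS_stmt) {r η L : ℝ} {φ : E3 → E3} (hr : 0 < r)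
    (hφ : ∀ x, ‖x‖ = r → ‖φ x‖ = r ∧ dist x (φ x) ≤ L) (hη : η ≤ 1) (hL : 1 ≤ L) (t : ℝ) (n : ℕ)
    [NeZero n] (hn : 2 * r * π / n ≤ η) (hg : ∀ (i : ZMod (2 * n)) (j : ℕ), ‖gr t r n i j‖ = r)
    (Bad : Finset (ZMod (2 * n) × ℕ)) :
    (r / (2 * (2 * L + 4))) ^ 2 - Bad.card ≤
      (((((Finset.univ : Finset (ZMod (2 * n))) ×ˢ range (n + 1)).filter (fun p => p ∉ Bad)).image
        (fun p => φ (gr t r n p.1 p.2))).card : ℝ) := by
  obtain ⟨P, hP1, hP2, hP3⟩ := hPTS r (2 * L + 4) (by linarith) hr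
  have hex : ∀ p : E3, ∃ q : ZMod (2 * n) × ℕ, p ∈ P → q.2 ≤ n ∧ dist p (gr t r n q.1 q.2) ≤ 1 := by
    intro p
    by_cases hp : p ∈ P
    · obtain ⟨i, j, hj, hd⟩ := hGDN t r n hr p (hP1 p hp)
      exact ⟨(i, j), fun _ => ⟨hj, hd.trans (hn.trans hη)⟩⟩
    · exact ⟨(0, 0), fun h => absurd h hp⟩
  choose ix hix using hex
  have hinj : ∀ p ∈ P, ∀ q ∈ P, φ (gr t r n (ix p).1 (ix p).2) = φ (gr t r n (ix q).1 (ix q).2) →
      p = q := by
    intro p hp q hq h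
    by_contra hpq
    have h1 := hP2 p hp q hq hpq
    have a1 := (hix p hp).2
    have a2 := (hix q hq).2
    have b1 := (hφ _ (hg (ix p).1 (ix p).2)).2
    have b2 := (hφ _ (hg (ix q).1 (ix q).2)).2
    rw [h] at b1
    have c1 := dist_triangle p (gr t r n (ix p).1 (ix p).2) q
    have c2 := dist_triangle (gr t r n (ix p).1 (ix p).2) (φ (gr t r n (ix q).1 (ix q).2)) q
    have c3 := dist_triangle (φ (gr t r n (ix q).1 (ix q).2)) (gr t r n (ix q).1 (ix q).2) q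
    rw [dist_comm _ (gr t r n (ix q).1 (ix q).2)] at c3
    rw [dist_comm q] at a2
    linarith
  have h1 : P.card ≤ (P.filter (fun p => ix p ∈ Bad)).card + (P.filter (fun p => ix p ∉ Bad)).card := by
    rw [← card_union_of_disjoint (disjoint_filter_filter_not _ _ _)]
    refine card_le_card ?_
    intro p hp
    rw [mem_union, mem_filter, mem_filter]
    by_cases h : ix p ∈ Bad
    · exact Or.inl ⟨hp, h⟩
    · exact Or.inr ⟨hp, h⟩
  have h2 : (P.filter (fun p => ix p ∈ Bad)).card ≤ Bad.card := by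
    refine card_le_card_of_injOn ix (fun p hp => ?_) (fun p hp q hq h => ?_)
    · exact (mem_filter.1 hp).2
    · have hp' := (mem_filter.1 (mem_coe.1 hp)).1
      have hq' := (mem_filter.1 (mem_coe.1 hq)).1
      exact hinj p hp' q hq' (by rw [h])
  have h3 : (P.filter (fun p => ix p ∉ Bad)).card ≤
      ((((Finset.univ : Finset (ZMod (2 * n))) ×ˢ range (n + 1)).filter (fun p => p ∉ Bad)).image
        (fun p => φ (gr t r n p.1 p.2))).card := by
    refine card_le_card_of_injOn (fun p => φ (gr t r n (ix p).1 (ix p).2)) (fun p hp => ?_)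
      (fun p hp q hq h => ?_)
    · have hp' := mem_filter.1 hp
      refine mem_coe.2 (mem_image.2 ⟨ix p, ?_, rfl⟩)
      rw [mem_filter, mem_product, mem_range]
      exact ⟨⟨mem_univ _, Nat.lt_succ_of_le (hix p hp'.1).1⟩, hp'.2⟩
    · have hp' := (mem_filter.1 (mem_coe.1 hp)).1
      have hq' := (mem_filter.1 (mem_coe.1 hq)).1
      exact hinj p hp' q hq' h
  have h4 : (P.card : ℝ) ≤ Bad.card +
      ((((Finset.univ : Finset (ZMod (2 * n))) ×ˢ range (n + 1)).filter (fun p => p ∉ Bad)).image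
        (fun p => φ (gr t r n p.1 p.2))).card := by
    exact_mod_cast h1.trans (Nat.add_le_add h2 h3)
  linarith

end

end Pool.Agent.helper78.FS
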