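import Pool.Agent.helper78.FS.Fin2

/-! Assembly of TOP, part 3. -/

namespace Pool.Agent.helper78.FS

open Finset Real
open Classical

noncomputable section

/-! ### counting triangles with a bad corner -/

theorem ta_ix {V : Type} {n : ℕ} (g : ZMod (2 * n) → ℕ → V) (f : FI n) :
    ta g f = g (ta (fun i j => (i, j)) f).1 (ta (fun i j => (i, j)) f).2 := by
  unfold ta; split_ifs <;> rfl
theorem tb_ix {V : Type} {n : ℕ} (g : ZMod (2 * n) → ℕ → V) (f : FI n) :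
    tb g f = g (tb (fun i j => (i, j)) f).1 (tb (fun i j => (i, j)) f).2 := by
  unfold tb; split_ifs <;> rfl
theorem tc_ix {V : Type} {n : ℕ} (g : ZMod (2 * n) → ℕ → V) (f : FI n) :
    tc g f = g (tc (fun i j => (i, j)) f).1 (tc (fun i j => (i, j)) f).2 := by
  unfold tc; split_ifs <;> rfl

theorem ta_le {n : ℕ} (f : FI n) : (ta (fun (i : ZMod (2 * n)) (j : ℕ) => (i, j)) f).2 ≤ n := by
  have := f.2.1.2
  unfold ta; split_ifs
  · show (f.2.1 : ℕ) + 1 ≤ n; omega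
  · show (f.2.1 : ℕ) ≤ n; omega
theorem tb_le {n : ℕ} (f : FI n) : (tb (fun (i : ZMod (2 * n)) (j : ℕ) => (i, j)) f).2 ≤ n := by
  have := f.2.1.2
  unfold tb; split_ifs
  · show (f.2.1 : ℕ) + 1 ≤ n; omega
  · show (f.2.1 : ℕ) ≤ n; omega
theorem tc_le {n : ℕ} (f : FI n) : (tc (fun (i : ZMod (2 * n)) (j : ℕ) => (i, j)) f).2 ≤ n := by
  have := f.2.1.2
  unfold tc; split_ifs
  · show (f.2.1 : ℕ) ≤ n; omega
  · show (f.2.1 : ℕ) + 1 ≤ n; omega

theorem cnt_ix {n : ℕ} [NeZero n] (h : FI n → ZMod (2 * n) × ℕ) (Bad : Finset (ZMod (2 * n) × ℕ))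
    (hinj : ∀ f f' : FI n, f.2.2 = f'.2.2 → h f = h f' → f = f') :
    ((Finset.univ : Finset (FI n)).filter (fun f => h f ∈ Bad)).card ≤ 2 * Bad.card := by
  have h1 : ((Finset.univ : Finset (FI n)).filter (fun f => h f ∈ Bad)).card ≤
      (Bad ×ˢ (Finset.univ : Finset Bool)).card := by
    refine card_le_card_of_injOn (fun f => (h f, f.2.2)) (fun f hf => ?_) (fun f hf f' hf' he => ?_)
    · have := (mem_filter.1 (mem_coe.1 hf)).2
      exact mem_coe.2 (mem_product.2 ⟨this, mem_univ _⟩)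
    · exact hinj f f' (Prod.ext_iff.1 he).2 (Prod.ext_iff.1 he).1
  rw [card_product, card_univ, Fintype.card_bool] at h1
  omega

theorem ix_inj {n : ℕ} (k : Bool → ZMod (2 * n)) (l : Bool → ℕ) (f f' : FI n) (hs : f.2.2 = f'.2.2)
    (h : (f.1 + k f.2.2, (f.2.1 : ℕ) + l f.2.2) = (f'.1 + k f'.2.2, (f'.2.1 : ℕ) + l f'.2.2)) :
    f = f' := by
  obtain ⟨i, j, s⟩ := f
  obtain ⟨i', j', s'⟩ := f'
  simp only at hs
  subst hs
  rw [Prod.mk.injEq] at h
  obtain ⟨h1, h2⟩ := h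
  simp only at h1 h2
  have e1 : i = i' := add_right_cancel h1
  have e2 : (j : ℕ) = j' := by omega
  rw [e1, Fin.ext e2]

theorem cnt_bad {n : ℕ} [NeZero n] (Bad : Finset (ZMod (2 * n) × ℕ)) :
    ((Finset.univ : Finset (FI n)).filter (fun f =>
      ta (fun (i : ZMod (2 * n)) (j : ℕ) => (i, j)) f ∈ Bad ∨
      tb (fun (i : ZMod (2 * n)) (j : ℕ) => (i, j)) f ∈ Bad ∨
      tc (fun (i : ZMod (2 * n)) (j : ℕ) => (i, j)) f ∈ Bad)).card ≤ 6 * Bad.card := by
  have ea : ∀ f : FI n, ta (fun (i : ZMod (2 * n)) (j : ℕ) => (i, j)) f =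
      (f.1 + (fun s : Bool => if s then (1 : ZMod (2 * n)) else 0) f.2.2,
        (f.2.1 : ℕ) + (fun s : Bool => if s then 1 else 0) f.2.2) := by
    rintro ⟨i, j, s⟩; cases s <;> simp [ta]
  have eb : ∀ f : FI n, tb (fun (i : ZMod (2 * n)) (j : ℕ) => (i, j)) f =
      (f.1 + (fun s : Bool => if s then (0 : ZMod (2 * n)) else 1) f.2.2,
        (f.2.1 : ℕ) + (fun s : Bool => if s then 1 else 0) f.2.2) := by
    rintro ⟨i, j, s⟩; cases s <;> simp [tb]
  have ec : ∀ f : FI n, tc (fun (i : ZMod (2 * n)) (j : ℕ) => (i, j)) f =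
      (f.1 + (fun s : Bool => if s then (0 : ZMod (2 * n)) else 1) f.2.2,
        (f.2.1 : ℕ) + (fun s : Bool => if s then 0 else 1) f.2.2) := by
    rintro ⟨i, j, s⟩; cases s <;> simp [tc]
  have ha := cnt_ix (fun f => ta (fun (i : ZMod (2 * n)) (j : ℕ) => (i, j)) f) Bad
    (fun f f' hs h => ix_inj (fun s : Bool => if s then (1 : ZMod (2 * n)) else 0)
      (fun s : Bool => if s then 1 else 0) f f' hs (by
        have h' : ta (fun (i : ZMod (2 * n)) (j : ℕ) => (i, j)) f = ta (fun (i : ZMod (2 * n)) (j : ℕ) => (i, j)) f' := h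
        rw [ea, ea] at h'; exact h'))
  have hb := cnt_ix (fun f => tb (fun (i : ZMod (2 * n)) (j : ℕ) => (i, j)) f) Bad
    (fun f f' hs h => ix_inj (fun s : Bool => if s then (0 : ZMod (2 * n)) else 1)
      (fun s : Bool => if s then 1 else 0) f f' hs (by
        have h' : tb (fun (i : ZMod (2 * n)) (j : ℕ) => (i, j)) f = tb (fun (i : ZMod (2 * n)) (j : ℕ) => (i, j)) f' := h
        rw [eb, eb] at h'; exact h'))
  have hc := cnt_ix (fun f => tc (fun (i : ZMod (2 * n)) (j : ℕ) => (i, j)) f) Bad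
    (fun f f' hs h => ix_inj (fun s : Bool => if s then (0 : ZMod (2 * n)) else 1)
      (fun s : Bool => if s then 0 else 1) f f' hs (by
        have h' : tc (fun (i : ZMod (2 * n)) (j : ℕ) => (i, j)) f = tc (fun (i : ZMod (2 * n)) (j : ℕ) => (i, j)) f' := h
        rw [ec, ec] at h'; exact h'))
  rw [filter_or, filter_or]
  refine (card_union_le _ _).trans ?_
  have := card_union_le
    ((Finset.univ : Finset (FI n)).filter (fun f => tb (fun (i : ZMod (2 * n)) (j : ℕ) => (i, j)) f ∈ Bad))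
    ((Finset.univ : Finset (FI n)).filter (fun f => tc (fun (i : ZMod (2 * n)) (j : ℕ) => (i, j)) f ∈ Bad))
  omega

/-! ### the set of bad grid points -/

def BadS (t r : ℝ) (n : ℕ) [NeZero n] (Bc : Finset E3) (D : ℝ) : Finset (ZMod (2 * n) × ℕ) :=
  ((Finset.univ : Finset (ZMod (2 * n))) ×ˢ range (n + 1)).filter
    (fun p => ∃ b ∈ Bc, dist (gr t r n p.1 p.2) b ≤ D)

theorem BadS_card (hGCO : GCO_stmt) (hGSP : GSP_stmt) (hPKG : PKG_stmt) (hGPK : GPK_stmt)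
    (t r : ℝ) (n : ℕ) [NeZero n] (Bc : Finset E3) (K : ℕ) (η D : ℝ) (hr : 0 < r) (hη : 0 < η)
    (hK : Bc.card ≤ K) (hD : 0 ≤ D) (hDr : 2 * (K + 1) * D ≤ r) (hn : (n : ℝ) ≤ 8 * r / η)
    (hB : ∀ b ∈ Bc, r / (K + 1) ≤ dist b (Nt r t) ∧ r / (K + 1) ≤ dist b (- Nt r t)) :
    (BadS t r n Bc D).card ≤ K * (⌈64 * D * (K + 1) / η⌉₊ + 2) ^ 3 := by
  have hK1 : (0 : ℝ) < K + 1 := by positivity
  have h1 : BadS t r n Bc D ⊆ Bc.biUnion (fun b =>
      ((Finset.univ : Finset (ZMod (2 * n))) ×ˢ range (n + 1)).filter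
        (fun p => dist (gr t r n p.1 p.2) b ≤ D)) := by
    intro p hp
    obtain ⟨hp1, b, hb, hd⟩ := mem_filter.1 hp
    exact mem_biUnion.2 ⟨b, hb, mem_filter.2 ⟨hp1, hd⟩⟩
  refine (card_le_card h1).trans ((card_biUnion_le_card_mul _ _
    ((⌈64 * D * (K + 1) / η⌉₊ + 2) ^ 3) (fun b hb => ?_)).trans (Nat.mul_le_mul_right _ hK))
  have hκ : (1 : ℝ) / (K + 1) * r = r / (K + 1) := by ring
  refine (hGPK hGCO hGSP hPKG t r (1 / (K + 1)) D n b hr (by positivity) ?_ hD ?_ ?_ ?_).trans ?_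
  · rw [div_le_one hK1]
    have : (0 : ℝ) ≤ K := Nat.cast_nonneg K
    linarith
  · rw [hκ, div_div, le_div_iff₀ (by positivity)]
    linarith
  · rw [hκ]; exact (hB b hb).1
  · rw [hκ]; exact (hB b hb).2
  · refine Nat.pow_le_pow_left (Nat.add_le_add_right (Nat.ceil_mono ?_) 2) 3
    rw [hκ, div_div_eq_mul_div, div_le_div_iff₀ hr hη]
    have h2 : (n : ℝ) * η ≤ 8 * r := by
      rwa [le_div_iff₀ hη] at hn
    have h3 : 0 ≤ D * (K + 1) := by positivity
    nlinarith [mul_le_mul_of_nonneg_left h2 h3]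

/-! ### the total area -/

theorem area_eq {V : Type} (c : V → Fin 7) (σ : Fin 7 → ZMod 7) (hUUU : UUU_stmt) (n : ℕ) [NeZero n]
    (g : ZMod (2 * n) → ℕ → V) :
    ∑ f : FI n, al c σ (ta g f) (tb g f) (tc g f) =
      ∑ i, ∑ j ∈ range n, (det2 (dl c σ (g i j) (g (i + 1) j)) (dl c σ (g (i + 1) j) (g (i + 1) (j + 1)))
        - det2 (dl c σ (g i j) (g i (j + 1))) (dl c σ (g i (j + 1)) (g (i + 1) (j + 1)))) := by
  rw [Fintype.sum_prod_type]
  refine sum_congr rfl (fun i _ => ?_)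
  rw [Fintype.sum_prod_type, ← Fin.sum_univ_eq_sum_range (fun j =>
    (det2 (dl c σ (g i j) (g (i + 1) j)) (dl c σ (g (i + 1) j) (g (i + 1) (j + 1)))
        - det2 (dl c σ (g i j) (g i (j + 1))) (dl c σ (g i (j + 1)) (g (i + 1) (j + 1))))) n]
  refine sum_congr rfl (fun j _ => ?_)
  rw [Fintype.sum_bool]
  have hneg : ∀ p q : V, dl c σ q p = - dl c σ p q := by
    intro p q
    unfold dl
    rw [← hUUU.2.1]
    congr 1
    ring
  show al c σ (g (i + 1) (j + 1)) (g i (j + 1)) (g i j) + al c σ (g i j) (g (i + 1) j) (g (i + 1) (j + 1)) = _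
  unfold al
  rw [hneg (g i (j + 1)) (g (i + 1) (j + 1)), hneg (g i j) (g i (j + 1))]
  unfold det2
  simp only [Prod.fst_neg, Prod.snd_neg]
  ring

end

end Pool.Agent.helper78.FS
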