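import Pool.Agent.helper78.FS.Fin3

/-! Assembly of TOP, part 4. -/

namespace Pool.Agent.helper78.FS

open Finset Real
open Classical

noncomputable section

theorem wt_transfer (hIND : IND_stmt) (hLFT : LFT_stmt) (hINZ : INZ_stmt) {r η L : ℝ} {M KB : ℕ}
    {c : E3 → Fin 7} {φ : E3 → E3} {Bl : Finset E3} {z : Finset (Finset E3)}
    (hC : Cfg r η L M KB c φ Bl) (hη : η ≤ 1) (hL : 1 ≤ L)
    (hr : 10 * (2 * L + 1) ≤ r) (hz : Cyc (Adj r η φ) z) (t : ℝ) (ht0 : 0 < t) (ht1 : t < π)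
    (ht2 : 10 * (2 * L + 1) ≤ r * sin t) : wt (Lft (om 0)) z = wt (Lft (om t)) z := by
  refine hINZ hLFT E3 (Adj r η φ) z (om 0) (om t) (chi t) (om_sym 0) (om_sym t)
    (fun x y => chi_comm t x y) hz (fun a b c' h => ?_)
  obtain ⟨h3, hcl⟩ := hz.1 _ h
  have hab : a ≠ b := by
    rintro rfl
    have : ({a, a, c'} : Finset E3).card ≤ 2 := by
      rw [insert_eq_of_mem (mem_insert_self _ _)]; exact card_le_two
    omega
  have hac : a ≠ c' := by
    rintro rfl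
    have : ({a, b, a} : Finset E3).card ≤ 2 := by
      rw [insert_eq_of_mem (by simp)]; exact card_le_two
    omega
  have hbc : b ≠ c' := by
    rintro rfl
    have : ({a, b, b} : Finset E3).card ≤ 2 := by
      rw [pair_eq_singleton]; exact card_le_two
    omega
  have g1 : Adj r η φ a b := hcl a (by simp) b (by simp) hab
  have g2 : Adj r η φ a c' := hcl a (by simp) c' (by simp) hac
  have g3 : Adj r η φ b c' := hcl b (by simp) c' (by simp) hbc
  exact hIND t (2 * L + 1) r a b c' (by linarith) hr ht0 ht1 ht2 (Adj_norm hC g1) (Adj_norm hC g3)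
    (Adj_norm hC (Adj_symm _ _ g2)) (Adj_dist hC hη g1) (Adj_dist hC hη g2) (Adj_dist hC hη g3)

/-- a vertex of `z` near the pole -/
theorem near_pole (hAXS : AXS_stmt) (hNEA : NEA_stmt) (hLFT : LFT_stmt) {r η L : ℝ} {M KB : ℕ}
    {c : E3 → Fin 7} {φ : E3 → E3} {Bl : Finset E3} {z : Finset (Finset E3)}
    (hC : Cfg r η L M KB c φ Bl) (hη : η ≤ 1) (hL : 1 ≤ L)
    (hr : 0 < r) (hz : Cyc (Adj r η φ) z) (t : ℝ) (hw : wt (Lft (om t)) z = 1) :
    ∃ v ∈ verts z, (∃ w, Adj r η φ v w) ∧ dist v (Nt r t) ≤ 2 * (2 * L + 1) := by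
  have : ∃ τ ∈ z, Lft (om t) τ ≠ 0 := by
    by_contra hcon
    push Not at hcon
    have : wt (Lft (om t)) z = 0 := sum_eq_zero hcon
    rw [this] at hw
    exact absurd hw (by decide)
  obtain ⟨τ, hτ, hne⟩ := this
  obtain ⟨h3, hcl⟩ := hz.1 τ hτ
  obtain ⟨a, b, c', hab, hac, hbc, rfl⟩ := card_eq_three.1 h3
  rw [hLFT E3 (om t) (om_sym t)] at hne
  have g1 : Adj r η φ a b := hcl a (by simp) b (by simp) hab
  have g2 : Adj r η φ a c' := hcl a (by simp) c' (by simp) hac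
  refine ⟨a, mem_biUnion.2 ⟨_, hτ, by simp⟩, ⟨b, g1⟩, ?_⟩
  exact hNEA hAXS t (2 * L + 1) r a b c' (by linarith) hr (Adj_norm hC g1) (Adj_dist hC hη g1)
    (Adj_dist hC hη g2) hne

theorem six_of {r η L : ℝ} {M KB : ℕ} {c : E3 → Fin 7} {φ : E3 → E3} {Bl : Finset E3}
    (hC : Cfg r η L M KB c φ Bl) (v : E3) (hv : v ∉ Bl) (S : Finset E3)
    (hS : ∀ w ∈ S, Adj r η φ v w) : S.card ≤ 6 := by
  have h1 : S.card ≤ ((Finset.univ : Finset (Fin 7)).erase (c v)).card := by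
    refine card_le_card_of_injOn c (fun w hw => ?_) (fun w hw w' hw' h => ?_)
    · exact mem_coe.2 (mem_erase.2 ⟨hC.2.2.2.1 v w hv (hS w hw), mem_univ _⟩)
    · exact hC.2.2.1 v hv w w' (hS w hw) (hS w' hw') h
  rw [card_erase_of_mem (mem_univ _), card_univ, Fintype.card_fin] at h1
  exact h1

end

end Pool.Agent.helper78.FS
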