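import Pool.Agent.helper78.FS.Fin4

/-! Assembly of TOP, part 5. -/

namespace Pool.Agent.helper78.FS

open Finset Real
open Classical

noncomputable section

theorem TOP_core (hAXS : AXS_stmt) (hCOC : COC_stmt) (hNEA : NEA_stmt) (hIND : IND_stmt)
    (hGCO : GCO_stmt) (hGST : GST_stmt) (hGDN : GDN_stmt) (hGSP : GSP_stmt) (hPKG : PKG_stmt)
    (hGPK : GPK_stmt) (hGCL : GCL_stmt) (hGDG : GDG_stmt) (hPOL : POL_stmt) (hPTS : PTS_stmt)
    (hCON : CON_stmt) (hLFT : LFT_stmt) (hPRI : PRI_stmt) (hPSH : PSH_stmt) (hINZ : INZ_stmt)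
    (hCYA : CYA_stmt) (hSBC : SBC_stmt) (hTRF : TRF_stmt) (hLNK : LNK_stmt) (hKAP : KAP_stmt)
    (hSUM : SUM_stmt) (hLIN : LIN_stmt) (hCHI : CHI_stmt) (hARC : ARC_stmt) (hSPT : SPT_stmt)
    (hCMB : CMB_stmt) (hPF1 : PF1_stmt) (hPF2 : PF2_stmt) (hPF3 : PF3_stmt) (hUUU : UUU_stmt)
    (hTRI : TRI_stmt) (hCNA : CNA_stmt) (hCNC : CNC_stmt) (hCND : CND_stmt) (hCNE : CNE_stmt)
    (hCNF : CNF_stmt) (hTOT : TOT_stmt) (hSTK : STK_stmt)
    (η L : ℝ) (M KB : ℕ) (hη0 : 0 < η) (hη : η ≤ 1) (hL : 1 ≤ L) (K C1 C2 : ℕ) (D1 D2 : ℝ)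
    (hK : K = (M + 1) * KB + 12) (hD1 : D1 = 4 * (2 * L + 1))
    (hC1 : C1 = K * (⌈64 * D1 * (K + 1) / η⌉₊ + 2) ^ 3) (hD2 : D2 = D1 + C1 + 1)
    (hC2 : C2 = K * (⌈64 * D2 * (K + 1) / η⌉₊ + 2) ^ 3)
    (r : ℝ) (e1 : 10 * (2 * L + 1) * (K + 1) ≤ r) (e2 : (C1 : ℝ) + 1 ≤ r)
    (e3 : 2 * (K + 1) * D2 ≤ r) (e4 : (K + 1) * (D2 + 10 * (2 * L + 1)) ≤ r)
    (c : E3 → Fin 7) (φ : E3 → E3) (Bl : Finset E3) (hC : Cfg r η L M KB c φ Bl) :
    2 * ((r / (2 * (2 * L + 4))) ^ 2 - C2) ≤ 16 * C2 * (8 * r / η) + 6 * C2 := by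
  have hK0 : (0 : ℝ) ≤ K := Nat.cast_nonneg K
  have hK1 : (0 : ℝ) < K + 1 := by linarith
  have hC10 : (0 : ℝ) ≤ C1 := Nat.cast_nonneg C1
  have hr1 : 10 * (2 * L + 1) ≤ r := by
    refine le_trans ?_ e1
    have : 10 * (2 * L + 1) * 1 ≤ 10 * (2 * L + 1) * ((K : ℝ) + 1) :=
      mul_le_mul_of_nonneg_left (by linarith) (by linarith)
    linarith
  have hr0 : 0 < r := by linarith
  have hrK : D2 + 10 * (2 * L + 1) ≤ r / (K + 1) := by
    rw [le_div_iff₀ hK1]; linarith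
  -- the grid
  obtain ⟨n, hn⟩ : ∃ n : ℕ, n = ⌈7 * r / η⌉₊ := ⟨_, rfl⟩
  have hrη : r ≤ r / η := by
    rw [le_div_iff₀ hη0]
    nlinarith
  have hnlo : 7 * r / η ≤ n := by rw [hn]; exact Nat.le_ceil _
  have hnup : (n : ℝ) ≤ 8 * r / η := by
    have h1 : (n : ℝ) < 7 * r / η + 1 := by rw [hn]; exact Nat.ceil_lt_add_one (by positivity)
    have h2 : 8 * r / η = 7 * r / η + r / η := by ring
    rw [h2]; linarith
  have hn3' : (3 : ℝ) ≤ n := by
    have : 7 * r / η = 7 * (r / η) := by ring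
    linarith
  have hn3 : 3 ≤ n := by exact_mod_cast hn3'
  have : NeZero n := ⟨by omega⟩
  have hn0 : (0 : ℝ) < n := by linarith
  have hstep : 2 * r * π / n ≤ η := by
    rw [div_le_iff₀ hn0]
    have h1 : 7 * r ≤ η * n := by
      rw [div_le_iff₀ hη0] at hnlo; linarith
    have h2 : π < 3.15 := Real.pi_lt_d2
    have h3 : 2 * r * π ≤ 7 * r := by nlinarith
    linarith
  -- the cycle
  have hg0 : ∀ (t : ℝ) (i : ZMod (2 * n)) (j : ℕ), ‖gr t r n i j‖ = r := fun t i j =>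
    (hGCO t r n hr0.le i j).2.2.2.1
  have gz : ∀ (t : ℝ) (i i' : ZMod (2 * n)), gr t r n i 0 = gr t r n i' 0 := fun t i i' => by
    rw [(hGCO t r n hr0.le i 0).2.2.2.2.1, (hGCO t r n hr0.le i' 0).2.2.2.2.1]
  have gnn : ∀ (t : ℝ) (i i' : ZMod (2 * n)), gr t r n i n = gr t r n i' n := fun t i i' => by
    rw [(hGCO t r n hr0.le i 0).2.2.2.2.2, (hGCO t r n hr0.le i' 0).2.2.2.2.2]
  have clo2 : ∀ t : ℝ, Clo2 (fun f => φ (ta (gr t r n) f)) (fun f => φ (tb (gr t r n) f))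
      (fun f => φ (tc (gr t r n) f)) := by
    intro t
    have h := grid_clo2 hGCL n (fun i j => φ (gr t r n i j)) (fun i i' => by rw [gz t i i'])
      (fun i i' => by rw [gnn t i i'])
    have ea : ta (fun i j => φ (gr t r n i j)) = fun f => φ (ta (gr t r n) f) :=
      funext (fun f => ta_comp φ _ f)
    have eb : tb (fun i j => φ (gr t r n i j)) = fun f => φ (tb (gr t r n) f) :=
      funext (fun f => tb_comp φ _ f)
    have ec : tc (fun i j => φ (gr t r n i j)) = fun f => φ (tc (gr t r n) f) :=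
      funext (fun f => tc_comp φ _ f)
    rwa [ea, eb, ec] at h
  have clo : ∀ t : ℝ, Clo (fun f => φ (ta (gr t r n) f)) (fun f => φ (tb (gr t r n) f))
      (fun f => φ (tc (gr t r n) f)) := by
    intro t
    have h := grid_clo hGCL n (fun i j => φ (gr t r n i j)) (fun i i' => by rw [gz t i i'])
      (fun i i' => by rw [gnn t i i'])
    have ea : ta (fun i j => φ (gr t r n i j)) = fun f => φ (ta (gr t r n) f) :=
      funext (fun f => ta_comp φ _ f)
    have eb : tb (fun i j => φ (gr t r n i j)) = fun f => φ (tb (gr t r n) f) :=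
      funext (fun f => tb_comp φ _ f)
    have ec : tc (fun i j => φ (gr t r n i j)) = fun f => φ (tc (gr t r n) f) :=
      funext (fun f => tc_comp φ _ f)
    rwa [ea, eb, ec] at h
  have tri : ∀ (t : ℝ) (f : FI n), Tri (Adj r η φ) (φ (ta (gr t r n) f)) (φ (tb (gr t r n) f))
      (φ (tc (gr t r n) f)) := fun t f => tri_f hGCO hGST hr0 n hstep t f
  have dg : ∀ t : ℝ, ∑ f : FI n, om t (φ (ta (gr t r n) f)) (φ (tb (gr t r n) f))
      (φ (tc (gr t r n) f)) = 1 := fun t =>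
    deg_one hAXS hCOC hGCO hGST hGCL hGDG hPRI hC hη hL hr1 n hstep hn3 t
  obtain ⟨z0, hz0, hw0⟩ := hPSH hLFT E3 (FI n) (Adj r η φ) (fun f => φ (ta (gr 0 r n) f))
    (fun f => φ (tb (gr 0 r n) f)) (fun f => φ (tc (gr 0 r n) f)) (om 0) Adj_symm (om_sym 0)
    (clo2 0) (tri 0) (dg 0)
  obtain ⟨z, Bc, hz, hwz, hBl, hBc, hloc⟩ := hCMB hCYA hSBC hTRF hLNK hKAP hSUM hLIN hCHI hARC hSPT
    E3 (Adj r η φ) (Lft (om 0)) Bl M Adj_symm Adj_irr hC.2.1 (fun v hv S hS => six_of hC v hv S hS)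
    (Coc_of hAXS hCOC hLFT hC hη hL hr1 0) ⟨z0, hz0, hw0⟩
  have hZ : Zd r η φ Bl z Bc := ⟨hz, hBl, hloc⟩
  have hBcK : Bc.card ≤ K := by
    rw [hK]
    exact hBc.trans (Nat.add_le_add_right (Nat.mul_le_mul_left _ hC.2.2.2.2) 12)
  -- the frame
  obtain ⟨t, ht, hpol⟩ := hPOL K r Bc hr0 hBcK
  have hwt : wt (Lft (om t)) z = 1 := by
    rcases ht with rfl | ⟨ht0, ht1, ht2⟩
    · exact hwz
    · rw [← wt_transfer hIND hLFT hINZ hC hη hL hr1 hz t ht0 ht1 ?_]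
      · exact hwz
      · refine le_trans ?_ ht2
        rw [le_div_iff₀ hK1]
        linarith
  obtain ⟨v, hv, ⟨w, hvw⟩, hvN⟩ := near_pole hAXS hNEA hLFT hC hη hL hr0 hz t hwt
  have hfarN : ∀ x : E3, ∀ D : ℝ, dist x (Nt r t) ≤ 8 * (2 * L + 1) → D ≤ D2 + 2 * (2 * L + 1) →
      ∀ b ∈ Bc, D ≤ dist x b := by
    intro x D hx hD b hb
    have h1 := (hpol b hb).1
    have h2 := dist_triangle b x (Nt r t)
    rw [dist_comm b x] at h2
    linarith
  have hD12 : D1 < D2 := by rw [hD2]; linarith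
  have hD1p : 0 ≤ D1 := by rw [hD1]; linarith
  have hD2p : 0 ≤ D2 := by linarith
  -- start
  obtain ⟨x, hx, hxv⟩ := Adj_rep hvw
  obtain ⟨i1, j1, hj1, hd1⟩ := hGDN t r n hr0 x hx
  have hd1' : dist x (gr t r n i1 j1) ≤ η := hd1.trans hstep
  have hxv' : dist x v ≤ L := by rw [← hxv]; exact (hC.1 x hx).2
  have hgN : dist (gr t r n i1 j1) (Nt r t) ≤ 4 * (2 * L + 1) := by
    have a1 := dist_triangle4 (gr t r n i1 j1) x v (Nt r t)
    rw [dist_comm (gr t r n i1 j1) x] at a1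
    linarith
  have hphiN : dist (φ (gr t r n i1 j1)) (Nt r t) ≤ 8 * (2 * L + 1) := by
    have a1 := dist_triangle (φ (gr t r n i1 j1)) (gr t r n i1 j1) (Nt r t)
    rw [dist_comm (φ (gr t r n i1 j1)) (gr t r n i1 j1)] at a1
    have a2 := (hC.1 _ (hg0 t i1 j1)).2
    linarith
  have hphiz : φ (gr t r n i1 j1) ∈ verts z := by
    rcases Adj_near (φ := φ) hx (hg0 t i1 j1) hd1' with h | h
    · rw [← h, hxv]; exact hv
    · rw [hxv] at h
      refine (Deep_of hC hη hL hZ hv (fun b hb => ?_)).2 _ h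
      have := hfarN v (D2 + 2 * (2 * L + 1)) (by linarith) le_rfl b hb
      linarith
  have hphifar : ∀ b ∈ Bc, 3 * (2 * L + 1) < dist (φ (gr t r n i1 j1)) b := by
    intro b hb
    have := hfarN _ (D2 + 2 * (2 * L + 1)) hphiN le_rfl b hb
    linarith
  obtain ⟨σ, n0, hσ, hP1⟩ := PP_start hCNA hCNC hPF1 hC hη hL hZ (clo t) (tri t) hphiz hphifar
  -- propagation
  have stp : ∀ x y : E3, ‖x‖ = r → ‖y‖ = r → dist x y ≤ η → (∀ b ∈ Bc, D1 < dist x b) →
      (∀ b ∈ Bc, D1 < dist y b) →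
      PP r η φ c z σ (fun f => φ (ta (gr t r n) f)) (fun f => φ (tb (gr t r n) f))
        (fun f => φ (tc (gr t r n) f)) n0 (φ x) →
      PP r η φ c z σ (fun f => φ (ta (gr t r n) f)) (fun f => φ (tb (gr t r n) f))
        (fun f => φ (tc (gr t r n) f)) n0 (φ y) := by
    intro x y hx hy hxy hfx hfy hP
    exact PP_step hCNA hCNC hCND hPF1 hPF2 hPF3 hC hη hL hZ hσ (clo t) (tri t) hx hy hxy
      (fun b hb => by rw [← hD1]; exact hfx b hb) (fun b hb => by rw [← hD1]; exact hfy b hb) hP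
  have hhalf : r * π / n ≤ η := by
    have h1 : 2 * r * π / n = 2 * (r * π / n) := by ring
    have h2 : 0 ≤ r * π / n := by positivity
    linarith
  have hsH : ∀ (i : ZMod (2 * n)) (j : ℕ), j ≤ n → dist (gr t r n i j) (gr t r n (i + 1) j) ≤ η :=
    fun i j hj => ((hGST t r n hr0.le i j hj).1).trans hhalf
  have hsV : ∀ (i : ZMod (2 * n)) (j : ℕ), j < n → dist (gr t r n i j) (gr t r n i (j + 1)) ≤ η :=
    fun i j hj => ((hGST t r n hr0.le i j hj.le).2 hj).trans hhalf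
  have bad1 : (BadS t r n Bc D1).card ≤ C1 := by
    rw [hC1]
    refine BadS_card hGCO hGSP hPKG hGPK t r n Bc K η D1 hr0 hη0 hBcK hD1p ?_ hnup hpol
    refine le_trans ?_ e3
    exact mul_le_mul_of_nonneg_left hD12.le (by linarith)
  have bad2 : (BadS t r n Bc D2).card ≤ C2 := by
    rw [hC2]
    exact BadS_card hGCO hGSP hPKG hGPK t r n Bc K η D2 hr0 hη0 hBcK hD2p e3 hnup hpol
  have hCn : C1 < 2 * n := by
    have h1 : (C1 : ℝ) < 2 * n := by
      have : 7 * r / η = 7 * (r / η) := by ring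
      linarith
    exact_mod_cast h1
  have all : ∀ (i : ZMod (2 * n)) (j : ℕ), j ≤ n → (∀ b ∈ Bc, D2 ≤ dist (gr t r n i j) b) →
      PP r η φ c z σ (fun f => φ (ta (gr t r n) f)) (fun f => φ (tb (gr t r n) f))
        (fun f => φ (tc (gr t r n) f)) n0 (φ (gr t r n i j)) := by
    refine hCON n (gr t r n) η D1 D2 C1 Bc (fun i j =>
      PP r η φ c z σ (fun f => φ (ta (gr t r n) f)) (fun f => φ (tb (gr t r n) f))
        (fun f => φ (tc (gr t r n) f)) n0 (φ (gr t r n i j))) hη0.le hsH hCn ?_ bad1 ?_ ?_ ?_ i1 j1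
      hj1 ?_ hP1
    · rw [hD2]
      nlinarith
    · intro i i' h
      show PP r η φ c z σ _ _ _ n0 (φ (gr t r n i' 0))
      rw [gz t i' i]; exact h
    · intro i j hj h1 h2
      exact ⟨stp _ _ (hg0 t _ _) (hg0 t _ _) (hsH i j hj) h1 h2,
        stp _ _ (hg0 t _ _) (hg0 t _ _) (by rw [dist_comm]; exact hsH i j hj) h2 h1⟩
    · intro i j hj h1 h2
      exact ⟨stp _ _ (hg0 t _ _) (hg0 t _ _) (hsV i j hj) h1 h2,
        stp _ _ (hg0 t _ _) (hg0 t _ _) (by rw [dist_comm]; exact hsV i j hj) h2 h1⟩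
    · exact hfarN _ D2 (by linarith) (by linarith)
  -- the degree is not zero
  have hn0' : n0 ≠ 0 := by
    obtain ⟨⟨hex, -, -⟩, -⟩ := (Deep_of hC hη hL hZ hphiz hphifar).1
    obtain ⟨u, hu1, hu2, hu3⟩ := hex
    refine PP_ne (c := c) (z := z) (σ := σ) (t := t) hCNA hCNF (clo t) (tri t) (dg t) u hu1 _ hu2 hu3
      (fun f hf => ?_)
    have tr := tri t f
    have nm := grid_f hGCO hGST t r η n hr0 hstep f
    have dAB : dist (φ (ta (gr t r n) f)) (φ (tb (gr t r n) f)) ≤ 2 * L + 1 := by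
      rcases tr.1 with h | h
      · rw [← h, dist_self]; linarith
      · exact Adj_dist hC hη h
    have dAC : dist (φ (ta (gr t r n) f)) (φ (tc (gr t r n) f)) ≤ 2 * L + 1 := by
      rcases tr.2.2 with h | h
      · rw [h, dist_self]; linarith
      · rw [dist_comm]; exact Adj_dist hC hη h
    have hN := hNEA hAXS t (2 * L + 1) r _ _ _ (by linarith) hr0 (hC.1 _ nm.1.1).1 dAB dAC hf
    have hN2 : dist (ta (gr t r n) f) (Nt r t) ≤ 8 * (2 * L + 1) := by
      have a1 := dist_triangle (ta (gr t r n) f) (φ (ta (gr t r n) f)) (Nt r t)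
      have a2 := (hC.1 _ nm.1.1).2
      linarith
    have := all _ _ (ta_le f) (fun b hb => by
      rw [← ta_ix (gr t r n) f]
      exact hfarN _ D2 hN2 (by linarith) b hb)
    rw [← ta_ix (gr t r n) f] at this
    exact this
  -- area
  obtain ⟨Dp, hDp⟩ : ∃ Dp : Finset E3, Dp =
      ((((Finset.univ : Finset (ZMod (2 * n))) ×ˢ range (n + 1)).filter
        (fun p => p ∉ BadS t r n Bc D2)).image (fun p => φ (gr t r n p.1 p.2))) := ⟨_, rfl⟩
  have hnotbad : ∀ (i : ZMod (2 * n)) (j : ℕ), j ≤ n → (i, j) ∉ BadS t r n Bc D2 →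
      ∀ b ∈ Bc, D2 < dist (gr t r n i j) b := by
    intro i j hj h b hb
    by_contra hcon
    exact h (mem_filter.2 ⟨mem_product.2 ⟨mem_univ _, mem_range.2 (Nat.lt_succ_of_le hj)⟩,
      b, hb, not_lt.1 hcon⟩)
  have hmemDp : ∀ (i : ZMod (2 * n)) (j : ℕ), j ≤ n → (i, j) ∉ BadS t r n Bc D2 →
      φ (gr t r n i j) ∈ Dp := by
    intro i j hj h
    rw [hDp]
    exact mem_image.2 ⟨(i, j), mem_filter.2 ⟨mem_product.2 ⟨mem_univ _,
      mem_range.2 (Nat.lt_succ_of_le hj)⟩, h⟩, rfl⟩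
  have hSS : ∀ x ∈ Dp, SS c σ (fun f => φ (ta (gr t r n) f)) (fun f => φ (tb (gr t r n) f))
      (fun f => φ (tc (gr t r n) f)) x = 6 * n0 := by
    intro x hx
    rw [hDp] at hx
    obtain ⟨⟨i, j⟩, hp, rfl⟩ := mem_image.1 hx
    obtain ⟨hp1, hp2⟩ := mem_filter.1 hp
    have hj : j ≤ n := Nat.lt_succ_iff.1 (mem_range.1 (mem_product.1 hp1).2)
    have hfar := hnotbad i j hj hp2
    refine PP_SS hUUU hTRI hCNA hCNC hCNE hC hη hL hZ hσ (clo t) (tri t) ?_
      (all i j hj (fun b hb => (hfar b hb).le))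
    intro b hb
    have := far_phi hC (hg0 t i j) hfar b hb
    rw [hD2, hD1] at this
    linarith
  have hcntf : ((Finset.univ : Finset (FI n)).filter (fun f => φ (ta (gr t r n) f) ∉ Dp ∨
      φ (tb (gr t r n) f) ∉ Dp ∨ φ (tc (gr t r n) f) ∉ Dp)).card ≤ 6 * C2 := by
    refine le_trans (card_le_card ?_) ((cnt_bad (BadS t r n Bc D2)).trans (Nat.mul_le_mul_left 6 bad2))
    intro f hf
    rw [mem_filter] at hf ⊢
    refine ⟨mem_univ _, ?_⟩
    rcases hf.2 with h | h | h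
    · left; by_contra hcon
      apply h; rw [ta_ix]; exact hmemDp _ _ (ta_le f) hcon
    · right; left; by_contra hcon
      apply h; rw [tb_ix]; exact hmemDp _ _ (tb_le f) hcon
    · right; right; by_contra hcon
      apply h; rw [tc_ix]; exact hmemDp _ _ (tc_le f) hcon
  have htot := hTOT hUUU E3 (FI n) c σ (fun f => φ (ta (gr t r n) f)) (fun f => φ (tb (gr t r n) f))
    (fun f => φ (tc (gr t r n) f)) n0 Dp (6 * C2) hn0' hSS hcntf
  have hcount := count_deep hGDN hPTS hr0 hC.1 hη hL t n hstep (hg0 t) (BadS t r n Bc D2)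
  rw [← hDp] at hcount
  have harea := area_eq c σ hUUU n (fun i j => φ (gr t r n i j))
  have hneg : ∀ p q : E3, dl c σ q p = - dl c σ p q := by
    intro p q
    unfold dl
    rw [← hUUU.2.1]
    congr 1
    ring
  have hdl0 : ∀ p : E3, dl c σ p p = 0 := by
    intro p; unfold dl; rw [sub_self]; exact hUUU.1
  have hstk := hSTK (2 * n) n (fun i j => dl c σ (φ (gr t r n i j)) (φ (gr t r n (i + 1) j)))
    (fun i j => dl c σ (φ (gr t r n i j)) (φ (gr t r n i (j + 1)))) (BadS t r n Bc D2)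
    (fun i j => hUUU.2.2.2.2.1 _) (fun i j => hUUU.2.2.2.2.1 _)
    (fun i => by show dl c σ _ _ = 0; rw [gz t (i + 1) i]; exact hdl0 _)
    (fun i => by show dl c σ _ _ = 0; rw [gnn t (i + 1) i]; exact hdl0 _)
    (fun i j hj hnb => by
      have hfar := hnotbad i j hj.le hnb
      have hP := all i j hj.le (fun b hb => (hfar b hb).le)
      have t1 := tri t (i, ⟨j, hj⟩, false)
      have t2 := tri t (i, ⟨j, hj⟩, true)
      simp only [ta, tb, tc, Bool.false_eq_true, if_false, if_true] at t1 t2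
      have c1 := (hTRI hUUU E3 (Adj r η φ) c σ _ _ _ Adj_symm hσ.injective hP.2.1 t1).1
      have t2' : Tri (Adj r η φ) (φ (gr t r n i j)) (φ (gr t r n (i + 1) (j + 1)))
          (φ (gr t r n i (j + 1))) := ⟨t2.2.2, t2.1, t2.2.1⟩
      have c2 := (hTRI hUUU E3 (Adj r η φ) c σ _ _ _ Adj_symm hσ.injective hP.2.1 t2').1
      rw [hneg (φ (gr t r n i j)) (φ (gr t r n (i + 1) (j + 1)))] at c1
      rw [hneg (φ (gr t r n i (j + 1))) (φ (gr t r n (i + 1) (j + 1))),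
        hneg (φ (gr t r n i j)) (φ (gr t r n i (j + 1)))] at c2
      show dl c σ _ _ + dl c σ _ _ - dl c σ _ _ - dl c σ _ _ = 0
      have c3 : dl c σ (φ (gr t r n i j)) (φ (gr t r n (i + 1) j)) +
        dl c σ (φ (gr t r n (i + 1) j)) (φ (gr t r n (i + 1) (j + 1))) =
        dl c σ (φ (gr t r n i j)) (φ (gr t r n (i + 1) (j + 1))) := by
          rw [← sub_eq_zero]; rw [sub_eq_add_neg]; exact c1
      rw [c3]
      rw [← c2]
      abel)
  have hA : |∑ f : FI n, al c σ (φ (ta (gr t r n) f)) (φ (tb (gr t r n) f)) (φ (tc (gr t r n) f))| ≤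
      16 * (BadS t r n Bc D2).card * n := by
    have e : ∑ f : FI n, al c σ (φ (ta (gr t r n) f)) (φ (tb (gr t r n) f)) (φ (tc (gr t r n) f)) =
        ∑ f : FI n, al c σ (ta (fun i j => φ (gr t r n i j)) f) (tb (fun i j => φ (gr t r n i j)) f)
          (tc (fun i j => φ (gr t r n i j)) f) :=
      sum_congr rfl (fun f _ => by rw [ta_comp, tb_comp, tc_comp])
    rw [e, harea]
    exact hstk
  have h1 : (2 * (Dp.card : ℤ) : ℤ) ≤ 16 * C2 * n + 6 * C2 := by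
    have h2 : (16 * (BadS t r n Bc D2).card * n : ℤ) ≤ 16 * C2 * n := by
      have : ((BadS t r n Bc D2).card : ℤ) ≤ C2 := by exact_mod_cast bad2
      have h3 : (0 : ℤ) ≤ n := Int.natCast_nonneg n
      nlinarith
    push_cast at htot
    linarith
  have h2 : (2 * (Dp.card : ℝ)) ≤ 16 * C2 * n + 6 * C2 := by exact_mod_cast h1
  have h3 : (16 : ℝ) * C2 * n ≤ 16 * C2 * (8 * r / η) :=
    mul_le_mul_of_nonneg_left hnup (by positivity)
  have h4 : ((BadS t r n Bc D2).card : ℝ) ≤ C2 := by exact_mod_cast bad2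
  linarith

end

end Pool.Agent.helper78.FS
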