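import Pool.Agent.helper78.FS.Fin5

/-! Assembly: TOP and Main from the rows. -/

namespace Pool.Agent.helper78.FS

open Finset Real
open Classical

noncomputable section

theorem TOP_of (hAXS : AXS_stmt) (hCOC : COC_stmt) (hNEA : NEA_stmt) (hIND : IND_stmt)
    (hGCO : GCO_stmt) (hGST : GST_stmt) (hGDN : GDN_stmt) (hGSP : GSP_stmt) (hPKG : PKG_stmt)
    (hGPK : GPK_stmt) (hGCL : GCL_stmt) (hGDG : GDG_stmt) (hPOL : POL_stmt) (hPTS : PTS_stmt)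
    (hCON : CON_stmt) (hLFT : LFT_stmt) (hPRI : PRI_stmt) (hPSH : PSH_stmt) (hINZ : INZ_stmt)
    (hCYA : CYA_stmt) (hSBC : SBC_stmt) (hTRF : TRF_stmt) (hLNK : LNK_stmt) (hKAP : KAP_stmt)
    (hSUM : SUM_stmt) (hLIN : LIN_stmt) (hCHI : CHI_stmt) (hARC : ARC_stmt) (hSPT : SPT_stmt)
    (hCMB : CMB_stmt) (hPF1 : PF1_stmt) (hPF2 : PF2_stmt) (hPF3 : PF3_stmt) (hUUU : UUU_stmt)
    (hTRI : TRI_stmt) (hCNA : CNA_stmt) (hCNC : CNC_stmt) (hCND : CND_stmt) (hCNE : CNE_stmt)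
    (hCNF : CNF_stmt) (hTOT : TOT_stmt) (hSTK : STK_stmt) : TOP_stmt := by
  intro η L M KB hη0 hη hL
  obtain ⟨K, hK⟩ : ∃ K : ℕ, K = (M + 1) * KB + 12 := ⟨_, rfl⟩
  obtain ⟨D1, hD1⟩ : ∃ D1 : ℝ, D1 = 4 * (2 * L + 1) := ⟨_, rfl⟩
  obtain ⟨C1, hC1⟩ : ∃ C1 : ℕ, C1 = K * (⌈64 * D1 * (K + 1) / η⌉₊ + 2) ^ 3 := ⟨_, rfl⟩
  obtain ⟨D2, hD2⟩ : ∃ D2 : ℝ, D2 = D1 + C1 + 1 := ⟨_, rfl⟩
  obtain ⟨C2, hC2⟩ : ∃ C2 : ℕ, C2 = K * (⌈64 * D2 * (K + 1) / η⌉₊ + 2) ^ 3 := ⟨_, rfl⟩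
  obtain ⟨s, hs⟩ : ∃ s : ℝ, s = 2 * (2 * L + 4) := ⟨_, rfl⟩
  have hK0 : (0 : ℝ) ≤ K := Nat.cast_nonneg K
  have hC10 : (0 : ℝ) ≤ C1 := Nat.cast_nonneg C1
  have hC20 : (0 : ℝ) ≤ C2 := Nat.cast_nonneg C2
  have hD10 : 0 ≤ D1 := by rw [hD1]; linarith
  have hD20 : 0 ≤ D2 := by rw [hD2]; linarith
  have hs0 : 0 < s := by rw [hs]; linarith
  have q1 : 0 ≤ 10 * (2 * L + 1) * (K + 1) := by positivity
  have q3 : 0 ≤ 2 * (K + 1) * D2 := by positivity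
  have q4 : 0 ≤ (K + 1) * (D2 + 10 * (2 * L + 1)) := by positivity
  have q5 : 0 ≤ s ^ 2 * (64 * C2 / η + 4 * C2 + 1) := by positivity
  refine ⟨10 * (2 * L + 1) * (K + 1) + (C1 + 1) + 2 * (K + 1) * D2 +
    (K + 1) * (D2 + 10 * (2 * L + 1)) + s ^ 2 * (64 * C2 / η + 4 * C2 + 1), fun r hr c φ Bl hC => ?_⟩
  have h := TOP_core hAXS hCOC hNEA hIND hGCO hGST hGDN hGSP hPKG hGPK hGCL hGDG hPOL hPTS hCON hLFT
    hPRI hPSH hINZ hCYA hSBC hTRF hLNK hKAP hSUM hLIN hCHI hARC hSPT hCMB hPF1 hPF2 hPF3 hUUU hTRI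
    hCNA hCNC hCND hCNE hCNF hTOT hSTK η L M KB hη0 hη hL K C1 C2 D1 D2 hK hD1 hC1 hD2 hC2 r
    (by linarith) (by linarith) (by linarith) (by linarith) c φ Bl hC
  rw [← hs] at h
  have hr1 : 1 ≤ r := by linarith
  have hr5 : s ^ 2 * (64 * C2 / η + 4 * C2 + 1) ≤ r := by linarith
  have h2 : r * (64 * C2 / η + 4 * C2 + 1) ≤ (r / s) ^ 2 := by
    rw [div_pow, le_div_iff₀ (by positivity)]
    have := mul_le_mul_of_nonneg_left hr5 (by linarith : (0 : ℝ) ≤ r)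
    nlinarith
  have h3 : (16 : ℝ) * C2 * (8 * r / η) = 2 * (r * (64 * C2 / η)) := by ring
  rw [h3] at h
  have h4 : (C2 : ℝ) ≤ r * C2 := by nlinarith
  nlinarith

theorem Main_of (hTOP : TOP_stmt) (hPTA : PTA_stmt) (hSIA : SIA_stmt) (hMRG : MRG_stmt)
    (hPKG : PKG_stmt) (hCLU : CLU_stmt) (hNB1 : NB1_stmt) (hNB2 : NB2_stmt) (hNB3 : NB3_stmt)
    (hNB4 : NB4_stmt) : Main_stmt := by
  intro ε hε N
  rcases Nat.eq_zero_or_pos N with rfl | hN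
  · exact ⟨0, fun r _ c _ => ⟨fun i => i.elim0, fun i => i.elim0, fun i => i.elim0⟩⟩
  · obtain ⟨η, L, M, KB, hη0, hη, hL, h⟩ := hPTA hSIA hMRG hPKG hCLU hNB1 hNB2 hNB3 hNB4 ε hε N hN
    obtain ⟨r0, h0⟩ := hTOP η L M KB hη0 hη hL
    refine ⟨r0, fun r hr c hG => ?_⟩
    by_contra hcon
    obtain ⟨φ, Bl, hC⟩ := h r c hG hcon
    exact h0 r hr c φ Bl hC

end

end Pool.Agent.helper78.FS
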